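import Pool.Agent.Q196.HI.Rep

open CategoryTheory Simplicial Opposite SimplexCategory.Truncated SimplicialObject.Truncated

universe u

namespace Pool.Agent.Q196.HI

open SSet.Truncated

variable {k : Type u} [Field k]

/-- the submodule of invariants -/
def Asub (x : (EV k) _⦋0⦌₂) : Submodule k (k × k) := Bsub x ⊓ LinearMap.ker (LinearMap.snd k k k)

lemma UA_mem {x y : (EV k) _⦋0⦌₂} (e : Edge x y) (w : k) {v : k × k} (hv : v ∈ Asub y) :
    U w v ∈ Asub x := by
  refine ⟨U_mem e w hv.1, ?_⟩
  have : v.2 = 0 := hv.2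
  simp [this]

/-- the transition map of an edge -/
def Amap {x y : (EV k) _⦋0⦌₂} (e : Edge x y) : Asub y →ₗ[k] Asub x :=
  (U ((ed e).w 0 1)).restrict (fun _ hv => UA_mem e _ hv)

/-- the inclusion -/
def incl (x : (EV k) _⦋0⦌₂) : Asub x →ₗ[k] Bsub x :=
  Submodule.inclusion inf_le_left

/-- the first coordinate -/
def fstA (x : (EV k) _⦋0⦌₂) : Asub x →ₗ[k] k := LinearMap.fst k k k ∘ₗ (Asub x).subtype

lemma Amap_id (x : (EV k) _⦋0⦌₂) : Amap (.id x) = LinearMap.id := by
  ext1 v
  have h := congrArg (fun f => f (incl x v)) (Bmap_id x)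
  apply Subtype.ext
  have h2 := congrArg Subtype.val h
  exact h2

lemma Amap_comp {x₀ x₁ x₂ : (EV k) _⦋0⦌₂} {e₀₁ : Edge x₀ x₁} {e₁₂ : Edge x₁ x₂}
    {e₀₂ : Edge x₀ x₂} (h : Edge.CompStruct e₀₁ e₁₂ e₀₂) :
    Amap e₀₁ ∘ₗ Amap e₁₂ = Amap e₀₂ := by
  ext1 v
  have h := congrArg (fun f => f (incl x₂ v)) (Bmap_comp h)
  apply Subtype.ext
  have h2 := congrArg Subtype.val h
  exact h2

variable (k) in
/-- the functor of the modules `Bsub` -/
def BF : (EV k).HomotopyCategory ⥤ (ModuleCat.{u} k)ᵒᵖ :=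
  HomotopyCategory.lift (fun x => op (ModuleCat.of k (Bsub x)))
    (fun e => (ModuleCat.ofHom (Bmap e)).op)
    (fun x => by rw [Bmap_id]; rfl)
    (fun h => by rw [← op_comp, ← ModuleCat.ofHom_comp, Bmap_comp h])

variable (k) in
/-- the functor of the modules `Asub` -/
def AF : (EV k).HomotopyCategory ⥤ (ModuleCat.{u} k)ᵒᵖ :=
  HomotopyCategory.lift (fun x => op (ModuleCat.of k (Asub x)))
    (fun e => (ModuleCat.ofHom (Amap e)).op)
    (fun x => by rw [Amap_id]; rfl)
    (fun h => by rw [← op_comp, ← ModuleCat.ofHom_comp, Amap_comp h])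

lemma BF_map {x y : (EV k) _⦋0⦌₂} (e : Edge x y) :
    (BF k).map (HomotopyCategory.homMk e) = (ModuleCat.ofHom (Bmap e)).op := by
  unfold BF
  apply HomotopyCategory.lift_map_homMk
  intro _ _ _ _ _ _ h
  rw [← op_comp, ← ModuleCat.ofHom_comp, Bmap_comp h]

lemma AF_map {x y : (EV k) _⦋0⦌₂} (e : Edge x y) :
    (AF k).map (HomotopyCategory.homMk e) = (ModuleCat.ofHom (Amap e)).op := by
  unfold AF
  apply HomotopyCategory.lift_map_homMk
  intro _ _ _ _ _ _ h
  rw [← op_comp, ← ModuleCat.ofHom_comp, Amap_comp h]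

variable (k) in
/-- the inclusion of functors -/
def inclF : BF k ⟶ AF k :=
  HomotopyCategory.mkNatTrans (fun x => (ModuleCat.ofHom (incl x)).op) (by
    intro x y e
    rw [BF_map, AF_map]
    rfl)

variable (k) in
/-- the first coordinate, as a natural transformation -/
def fstF : (Functor.const (EV k).HomotopyCategory).obj (op (ModuleCat.of k k)) ⟶ AF k :=
  HomotopyCategory.mkNatTrans (fun x => (ModuleCat.ofHom (fstA x)).op) (by
    intro x y e
    rw [AF_map]
    change 𝟙 _ ≫ (ModuleCat.ofHom (fstA y)).op = _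
    rw [Category.id_comp]
    change _ = (ModuleCat.ofHom (fstA x)).op ≫ (ModuleCat.ofHom (Amap e)).op
    rw [← op_comp, ← ModuleCat.ofHom_comp]
    congr 2
    ext1 v
    change v.1.1 = v.1.1 + _ * v.1.2
    have : v.1.2 = 0 := v.2.2
    rw [this, mul_zero, add_zero])

/-- vertex over `0` -/
def star : (EV k) _⦋0⦌₂ :=
  (⟨OrderHom.const _ 0, fun _ _ => 0, fun _ _ _ => rfl, fun _ _ _ _ _ _ => by simp⟩ : ESimp k 0)

/-- vertex over `1` -/
def pt : (EV k) _⦋0⦌₂ :=
  (⟨OrderHom.const _ 1, fun _ _ => 0, fun _ _ _ => rfl, fun _ _ _ _ _ _ => by simp⟩ : ESimp k 0)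

/-- loop at `star` -/
def loopS : ESimp k 1 where
  τ := OrderHom.const _ 0
  w a b := if a < b then 1 else 0
  w_out a b h := by simp [h]
  cocycle a b c h1 h2 _ := by
    rcases h1.eq_or_lt with rfl | h1
    · simp
    rcases h2.eq_or_lt with rfl | h2
    · simp
    exfalso; omega

/-- the edge from `star` to `pt` -/
def epsS : ESimp k 1 where
  τ := OrderHom.id
  w _ _ := 0
  w_out _ _ _ := rfl
  cocycle _ _ _ _ _ _ := by simp

/-- the triangle -/
def triS : ESimp k 2 where
  τ := ⟨![0, 0, 1], by decide⟩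
  w a b := if a = 0 ∧ b = 1 then 1 else 0
  w_out a b h := by
    rw [if_neg]
    rintro ⟨rfl, rfl⟩
    exact h (by decide)
  cocycle a b c h1 h2 h3 := by
    have hc : c ≠ 2 := by
      rintro rfl
      revert h3
      decide
    rcases h1.eq_or_lt with rfl | h1
    · by_cases h : a = 0 <;> simp [h]
    rcases h2.eq_or_lt with rfl | h2
    · by_cases h : b = 1 <;> simp [h]
    have hc' : (c : ℕ) ≠ 2 := fun h => hc (Fin.ext h)
    exfalso; omega

/-- loop at `star` -/
def loopE : Edge (star (k := k)) star where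
  edge := (loopS : ESimp k 1)
  src_eq := by
    apply ESimp.ext
    · rfl
    · funext a b
      fin_cases a; fin_cases b; rfl
  tgt_eq := by
    apply ESimp.ext
    · rfl
    · funext a b
      fin_cases a; fin_cases b; rfl

/-- the edge from `star` to `pt` -/
def epsE : Edge (star (k := k)) pt where
  edge := (epsS : ESimp k 1)
  src_eq := by
    apply ESimp.ext
    · ext a; fin_cases a; rfl
    · rfl
  tgt_eq := by
    apply ESimp.ext
    · ext a; fin_cases a; rfl
    · rfl

/-- the triangle -/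
def triE : Edge.CompStruct (loopE (k := k)) epsE epsE where
  simplex := (triS : ESimp k 2)
  d₂ := by
    apply ESimp.ext
    · ext a; fin_cases a <;> rfl
    · funext a b; fin_cases a <;> fin_cases b <;> rfl
  d₀ := by
    apply ESimp.ext
    · ext a; fin_cases a <;> rfl
    · funext a b; fin_cases a <;> fin_cases b <;> rfl
  d₁ := by
    apply ESimp.ext
    · ext a; fin_cases a <;> rfl
    · funext a b; fin_cases a <;> fin_cases b <;> rfl

/-- the inclusion of the modules -/
def iAB : (AF k).leftOp ⟶ (BF k).leftOp := NatTrans.leftOp (inclF k)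

/-- the first coordinate -/
def fA : (AF k).leftOp ⟶ ((Functor.const (EV k).HomotopyCategory).obj (op (ModuleCat.of k k))).leftOp :=
  NatTrans.leftOp (fstF k)

instance : Mono (iAB (k := k)) := by
  have : ∀ x, Mono ((iAB (k := k)).app x) := by
    rintro ⟨x⟩
    induction x using HomotopyCategory.cases_on with
    | h x =>
      rw [ModuleCat.mono_iff_injective]
      change Function.Injective (incl x)
      exact Submodule.inclusion_injective _
  exact NatTrans.mono_of_mono_app _

/-- the constant module is not internally injective over `E` -/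
theorem not_injective_E (M : (EV k).HomotopyCategoryᵒᵖ ⥤ ModuleCat.{u} k)
    (hM : M = (Functor.const _).obj (ModuleCat.of k k)) :
    ¬ InternallyInjective k M := by
  subst hM
  intro H
  have H1 := H (iAB (k := k))
  rw [NatTrans.epi_iff_epi_app] at H1
  have H2 := H1 (op (HomotopyCategory.mk pt))
  rw [epi_iff_surjective] at H2
  obtain ⟨g, hg⟩ := H2 (Functor.whiskerLeft (Over.forget _).op (fA (k := k)))
  change (Over.forget (HomotopyCategory.mk pt)).op ⋙ (BF k).leftOp ⟶
    (Over.forget (HomotopyCategory.mk pt)).op ⋙ (Functor.const _).obj (ModuleCat.of k k) at g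
  change Functor.whiskerLeft (Over.forget _).op (iAB (k := k)) ≫ g = _ at hg
  let ε : HomotopyCategory.mk (star (k := k)) ⟶ HomotopyCategory.mk pt :=
    HomotopyCategory.homMk epsE
  let l : HomotopyCategory.mk (star (k := k)) ⟶ HomotopyCategory.mk star :=
    HomotopyCategory.homMk loopE
  have hl : l ≫ ε = ε := HomotopyCategory.homMk_comp_homMk triE
  let o : Over (HomotopyCategory.mk (pt (k := k))) := Over.mk ε
  let lo : o ⟶ o := Over.homMk l hl
  let G : Bsub (star (k := k)) →ₗ[k] k := (g.app (op o)).hom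
  have hnat : ∀ v : Bsub (star (k := k)), G (Bmap loopE v) = G v := by
    intro v
    have h1 := congrArg (fun φ => φ.hom v) (g.naturality lo.op)
    have h2 : ((Over.forget (HomotopyCategory.mk pt)).op ⋙ (BF k).leftOp).map lo.op =
        ModuleCat.ofHom (Bmap loopE) := congrArg Quiver.Hom.unop (BF_map (k := k) loopE)
    rw [h2] at h1
    exact h1
  have hres : ∀ a : Asub (star (k := k)), G (incl star a) = a.1.1 := by
    intro a
    have h1 := congrArg (fun φ => (φ.app (op o)).hom a) hg
    exact h1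
  have hs0 : (vx (star (k := k))).τ 0 = 0 := rfl
  have hB : ∀ v : k × k, v ∈ Bsub (star (k := k)) := by
    intro v h
    rw [hs0] at h
    exact absurd h (by decide)
  have h1 := hnat ⟨(0, 1), hB _⟩
  have h2 : Bmap loopE ⟨((0 : k), (1 : k)), hB _⟩ = (⟨(1, 0), hB _⟩ : Bsub (star (k := k))) +
      ⟨(0, 1), hB _⟩ := by
    apply Subtype.ext
    rw [Bmap_coe]
    have h3 : (ed (loopE (k := k))).w 0 1 = 1 := rfl
    rw [h3]
    simp
  rw [h2, map_add, add_eq_right] at h1
  have h4 := hres ⟨(1, 0), hB _, rfl⟩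
  have h5 : incl (star (k := k)) ⟨(1, 0), hB _, rfl⟩ = ⟨(1, 0), hB _⟩ := rfl
  rw [h5, h1] at h4
  exact one_ne_zero h4.symm

end Pool.Agent.Q196.HI
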