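import Pool.Agent.Q196.HI.Init
import Pool.Agent.Q196.HI.Neg

open CategoryTheory Simplicial Opposite SimplexCategory.Truncated SimplicialObject.Truncated

universe u

namespace Pool.Agent.Q196.HI

open SSet.Truncated

section

variable (k : Type u) [AddCommGroup k]

/-- the projection `D → Δ[1]` -/
def rD : DS k ⟶ Δ[1] where
  app Δ := ↾(fun s : DSimp k Δ.unop.len => SSet.stdSimplex.objMk s.τ)
  naturality _ _ _ := rfl

/-- the section -/
def secD : (Δ[1] : SSet.{u}) ⟶ DS k where
  app Δ := ↾(fun x : (Δ[1] : SSet.{u}).obj Δ => (⟨SSet.stdSimplex.asOrderHom x, fun _ _ _ => 0,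
    fun _ _ _ _ => rfl, fun _ _ _ _ => rfl, fun _ _ _ _ _ _ _ => rfl⟩ : DSimp k Δ.unop.len))
  naturality _ _ _ := rfl

lemma sec_r : secD k ≫ rD k = 𝟙 _ := rfl

lemma r_sec_eq {n : ℕ} (hn : n < 2) (s : DSimp k n) :
    (⟨s.τ, fun _ _ _ => 0, fun _ _ _ _ => rfl, fun _ _ _ _ => rfl,
      fun _ _ _ _ _ _ _ => rfl⟩ : DSimp k n) = s := by
  apply DSimp.ext
  · rfl
  · funext a b c
    rw [s.z_out a b c]
    rintro ⟨h1, h2⟩
    omega

lemma ho_r_sec : SSet.hoFunctor.map (rD k ≫ secD k) = 𝟙 (SSet.hoFunctor.obj (DS k)) := by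
  have h0 : ∀ x : (FV (DS k)) _⦋0⦌₂,
      ((SSet.truncation 2).map (rD k ≫ secD k)).app _ x = x :=
    fun x => r_sec_eq k (by decide) x
  have h1 : ∀ x : (FV (DS k)) _⦋1⦌₂,
      ((SSet.truncation 2).map (rD k ≫ secD k)).app _ x = x :=
    fun x => r_sec_eq k (by decide) x
  ext1
  refine HomotopyCategory.functor_ext (fun x => ?_) (fun x y e => ?_)
  · exact congrArg HomotopyCategory.mk (h0 x)
  · have h := HomotopyCategory.congr_arrowMk_homMk
      (e.map ((SSet.truncation 2).map (rD k ≫ secD k))) e (h1 e.edge)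
    rw [Arrow.mk_eq_mk_iff] at h
    obtain ⟨ha, hb, hc⟩ := h
    exact hc

end

instance isIso_ho_r (k : Type u) [AddCommGroup k] : IsIso (SSet.hoFunctor.map (rD k)) :=
  ⟨⟨SSet.hoFunctor.map (secD k), by rw [← Functor.map_comp, ho_r_sec],
    by rw [← Functor.map_comp, sec_r, CategoryTheory.Functor.map_id]⟩⟩

/-- the constant module `k` on (the homotopy category of) a simplicial set -/
def constMod (k : Type u) [Ring k] (D : SSet.{u}) :
    (SSet.hoFunctor.obj D)ᵒᵖ ⥤ ModuleCat.{u} k :=
  (Functor.const _).obj (ModuleCat.of k k)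

/-- over `Δ[1]` the constant module is HoTT-injective -/
theorem hott_interval (k : Type u) [Field k] : HoTTInjective k Δ[1] (constMod k Δ[1]) := by
  intro E p hp
  apply internallyInjective_of_initial
  · intro x y f
    change IsIso (𝟙 _)
    infer_instance
  · intro c
    exact hasInitial_over hp c

lemma isRightFibration_id (D : SSet.{u}) : IsRightFibration (𝟙 D) := fun _ _ _ => inferInstance

/-- over `D` the constant module is internally injective -/
theorem internallyInjective_D (k : Type u) [Field k] :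
    InternallyInjective k (constMod k (DS k)) := by
  apply internallyInjective_of_initial
  · intro x y f
    change IsIso (𝟙 _)
    infer_instance
  · intro c
    let e : SSet.hoFunctor.obj (DS k) ≅ SSet.hoFunctor.obj Δ[1] := asIso (SSet.hoFunctor.map (rD k))
    let e' := Cat.equivOfIso e
    have h1 : Limits.HasInitial (Over (e'.functor.obj c)) :=
      hasInitial_over (isRightFibration_id Δ[1]) (e'.functor.obj c)
    have e'' : Over c ≌ Over (e'.functor.obj c) := Over.postEquiv c e'
    exact e''.hasInitial_iff.2 h1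

/-- over `D` the constant module is not HoTT-injective -/
theorem not_hott_D (k : Type u) [Field k] : ¬ HoTTInjective k (DS k) (constMod k (DS k)) := by
  intro H
  exact not_injective_E _ rfl (H (ES k) (pED k) pED_rightFibration)

end Pool.Agent.Q196.HI
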