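import Pool.Agent.Q196.HI.Defs

open CategoryTheory Simplicial Opposite

universe u

namespace Pool.Agent.Q196.HI

variable (k : Type u) [AddCommGroup k]

/-- An `n`-simplex of the simplicial set `D`: a monotone map `τ : [n] → [1]` (the vertices
over `0` form an initial segment, those over `1` a final segment), and a normalised `2`-cocycle
`z` on the ordered simplex with coefficients in the abelian group `k`, which vanishes on
the face spanned by the vertices over `0`.  (`z a b c` is meant for `a < b < c`;
by convention it is `0` otherwise.) -/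
@[ext]
structure DSimp (n : ℕ) where
  τ : Fin (n + 1) →o Fin 2
  z : Fin (n + 1) → Fin (n + 1) → Fin (n + 1) → k
  z_out : ∀ a b c, ¬ (a < b ∧ b < c) → z a b c = 0
  z_zero : ∀ a b c, τ c = 0 → z a b c = 0
  cocycle : ∀ a b c d, a ≤ b → b ≤ c → c ≤ d → z b c d + z a b d = z a c d + z a b c

/-- An `n`-simplex of the simplicial set `E`: a monotone map `τ : [n] → [1]`, and a normalised
`1`-cochain `w` on the ordered simplex with coefficients in the abelian group `k`, whose
restriction to the face spanned by the vertices over `0` is a cocycle.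
(`w a b` is meant for `a < b`; by convention it is `0` otherwise.) -/
@[ext]
structure ESimp (n : ℕ) where
  τ : Fin (n + 1) →o Fin 2
  w : Fin (n + 1) → Fin (n + 1) → k
  w_out : ∀ a b, ¬ a < b → w a b = 0
  cocycle : ∀ a b c, a ≤ b → b ≤ c → τ c = 0 → w a b + w b c = w a c

variable {k}

/-- pull back along a monotone map -/
@[simps]
def DSimp.pull {m n : ℕ} (f : Fin (m + 1) →o Fin (n + 1)) (s : DSimp k n) : DSimp k m where
  τ := s.τ.comp f
  z a b c := s.z (f a) (f b) (f c)
  z_out a b c h := by
    apply s.z_out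
    rintro ⟨h1, h2⟩
    exact h ⟨lt_of_not_ge fun h' => absurd h1 (not_lt.2 (f.monotone h')),
      lt_of_not_ge fun h' => absurd h2 (not_lt.2 (f.monotone h'))⟩
  z_zero a b c h := s.z_zero _ _ _ h
  cocycle a b c d h1 h2 h3 := s.cocycle _ _ _ _ (f.monotone h1) (f.monotone h2) (f.monotone h3)

/-- pull back along a monotone map -/
@[simps]
def ESimp.pull {m n : ℕ} (f : Fin (m + 1) →o Fin (n + 1)) (s : ESimp k n) : ESimp k m where
  τ := s.τ.comp f
  w a b := s.w (f a) (f b)
  w_out a b h := by
    apply s.w_out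
    intro h1
    exact h (lt_of_not_ge fun h' => absurd h1 (not_lt.2 (f.monotone h')))
  cocycle a b c h1 h2 h := s.cocycle _ _ _ (f.monotone h1) (f.monotone h2) h

/-- the coboundary -/
def ESimp.d {n : ℕ} (s : ESimp k n) : DSimp k n where
  τ := s.τ
  z a b c := if a < b ∧ b < c then s.w a b + s.w b c - s.w a c else 0
  z_out a b c h := by simp [h]
  z_zero a b c h := by
    split_ifs with h1
    · rw [s.cocycle a b c h1.1.le h1.2.le h, sub_self]
    · rfl
  cocycle a b c d h1 h2 h3 := by
    have key : ∀ a b c, a ≤ b → b ≤ c →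
        (if a < b ∧ b < c then s.w a b + s.w b c - s.w a c else 0) =
          s.w a b + s.w b c - s.w a c := by
      intro a b c h1 h2
      rcases h1.eq_or_lt with rfl | h1
      · simp [s.w_out a a (lt_irrefl _)]
      rcases h2.eq_or_lt with rfl | h2
      · simp [s.w_out b b (lt_irrefl _)]
      simp [h1, h2]
    rw [key b c d h2 h3, key a b d h1 (h2.trans h3), key a c d (h1.trans h2) h3, key a b c h1 h2]
    abel

lemma ESimp.d_z {n : ℕ} (s : ESimp k n) {a b c : Fin (n + 1)} (h1 : a ≤ b) (h2 : b ≤ c) :
    s.d.z a b c = s.w a b + s.w b c - s.w a c := by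
  change (if a < b ∧ b < c then s.w a b + s.w b c - s.w a c else 0) = _
  rcases h1.eq_or_lt with rfl | h1
  · simp [s.w_out a a (lt_irrefl _)]
  rcases h2.eq_or_lt with rfl | h2
  · simp [s.w_out b b (lt_irrefl _)]
  simp [h1, h2]

lemma ESimp.d_τ {n : ℕ} (s : ESimp k n) : s.d.τ = s.τ := rfl

lemma ESimp.d_pull {m n : ℕ} (f : Fin (m + 1) →o Fin (n + 1)) (s : ESimp k n) :
    (s.pull f).d = s.d.pull f := by
  ext1
  · rfl
  · funext a b c
    rcases lt_or_ge a b with hab | hab
    · rcases lt_or_ge b c with hbc | hbc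
      · rw [ESimp.d_z _ hab.le hbc.le, DSimp.pull_z,
          ESimp.d_z _ (f.monotone hab.le) (f.monotone hbc.le)]
        rfl
      · rw [DSimp.z_out _ _ _ _ (fun h => absurd h.2 (not_lt.2 hbc)),
          DSimp.z_out _ _ _ _ (fun h => absurd h.2 (not_lt.2 hbc))]
    · rw [DSimp.z_out _ _ _ _ (fun h => absurd h.1 (not_lt.2 hab)),
        DSimp.z_out _ _ _ _ (fun h => absurd h.1 (not_lt.2 hab))]

variable (k)

/-- the simplicial set `D` -/
def DS : SSet.{u} where
  obj Δ := DSimp k Δ.unop.len
  map f := ↾(DSimp.pull f.unop.toOrderHom)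

/-- the simplicial set `E` -/
def ES : SSet.{u} where
  obj Δ := ESimp k Δ.unop.len
  map f := ↾(ESimp.pull f.unop.toOrderHom)

/-- the map `E → D` given by the coboundary -/
def pED : ES k ⟶ DS k where
  app Δ := ↾(ESimp.d)
  naturality := by
    intro X Y f
    refine ConcreteCategory.hom_ext _ _ (fun s => ?_)
    exact ESimp.d_pull f.unop.toOrderHom s

end Pool.Agent.Q196.HI
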