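import Mathlib

open CategoryTheory Simplicial Opposite

universe u v w w'

namespace Pool.Agent.Q196.HI

set_option backward.isDefEq.respectTransparency.types false in
set_option backward.defeqAttrib.useBackward true in
/-- For a map `i : A ⟶ B` of presheaves on `C` (with values in a category `𝒜`) and a presheaf
`I`, the map of presheaves of sets `i^* : Hom(B, I) ⟶ Hom(A, I)` between the internal homs
(`presheafHom` is Mathlib's internal hom: its value at `c` is the set of maps between the
restrictions to the slice category `Over c`). -/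
def precomp {C : Type u} [Category.{v} C] {𝒜 : Type w} [Category.{w'} 𝒜]
    {A B : Cᵒᵖ ⥤ 𝒜} (i : A ⟶ B) (I : Cᵒᵖ ⥤ 𝒜) :
    presheafHom B I ⟶ presheafHom A I where
  app U := ↾(fun φ => Functor.whiskerLeft (Over.forget U.unop).op i ≫ φ)
  naturality := by
    rintro ⟨X⟩ ⟨Y⟩ ⟨f⟩
    ext φ
    rfl

set_option backward.isDefEq.respectTransparency.types false in
set_option backward.defeqAttrib.useBackward true in
/-- For a map `p : B ⟶ A` of presheaves on `C` and a presheaf `P`, the map of presheaves of
sets `p_* : Hom(P, B) ⟶ Hom(P, A)` between the internal homs. -/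
def postcomp {C : Type u} [Category.{v} C] {𝒜 : Type w} [Category.{w'} 𝒜]
    {B A : Cᵒᵖ ⥤ 𝒜} (p : B ⟶ A) (P : Cᵒᵖ ⥤ 𝒜) :
    presheafHom P B ⟶ presheafHom P A where
  app U := ↾(fun φ => φ ≫ Functor.whiskerLeft (Over.forget U.unop).op p)
  naturality := by
    rintro ⟨X⟩ ⟨Y⟩ ⟨f⟩
    ext φ
    rfl

/-- **Internal injectivity.**  `C` is a small category, `k` a ring.  Presheaves of `k`-modules on
`C` are the modules over the constant ring `k` in the topos of presheaves of sets on `C`.
Such a module `I` is internally injective if for every monomorphism `i : A ⟶ B` of modules the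
map of internal homs `Hom(B, I) ⟶ Hom(A, I)` is an epimorphism of presheaves of sets. -/
def InternallyInjective (k : Type u) [Ring k] {C : Type u} [Category.{u} C]
    (I : Cᵒᵖ ⥤ ModuleCat.{u} k) : Prop :=
  ∀ ⦃A B : Cᵒᵖ ⥤ ModuleCat.{u} k⦄ (i : A ⟶ B) [Mono i], Epi (precomp i I)

/-- **Internal projectivity.**  A presheaf `P` of `k`-modules on `C` is internally projective if
for every epimorphism `p : B ⟶ A` of presheaves of `k`-modules the map of internal homs
`Hom(P, B) ⟶ Hom(P, A)` is an epimorphism of presheaves of sets. -/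
def InternallyProjective (k : Type u) [Ring k] {C : Type u} [Category.{u} C]
    (P : Cᵒᵖ ⥤ ModuleCat.{u} k) : Prop :=
  ∀ ⦃B A : Cᵒᵖ ⥤ ModuleCat.{u} k⦄ (p : B ⟶ A) [Epi p], Epi (postcomp p P)

/-- Right fibrations of simplicial sets: the right lifting property against the horn inclusions
`Λ[n, i] ⟶ Δ[n]` with `0 < i ≤ n`. -/
def IsRightFibration {E D : SSet.{u}} (p : E ⟶ D) : Prop :=
  ∀ (n : ℕ) (i : Fin (n + 2)), 0 < i → HasLiftingProperty (Λ[n + 1, i] : (Δ[n + 1] : SSet.{u}).Subcomplex).ι p

/-- **HoTT-injectivity** in the `∞`-topos of presheaves of spaces on (the `∞`-category presented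
by) a simplicial set `D`. -/
def HoTTInjective (k : Type u) [Ring k] (D : SSet.{u})
    (M : (SSet.hoFunctor.obj D)ᵒᵖ ⥤ ModuleCat.{u} k) : Prop :=
  ∀ (E : SSet.{u}) (p : E ⟶ D), IsRightFibration p →
    InternallyInjective k ((SSet.hoFunctor.map p).toFunctor.op ⋙ M)

/-- **HoTT-projectivity** in the `∞`-topos of presheaves of spaces on (the `∞`-category presented
by) a simplicial set `D`. -/
def HoTTProjective (k : Type u) [Ring k] (D : SSet.{u})
    (M : (SSet.hoFunctor.obj D)ᵒᵖ ⥤ ModuleCat.{u} k) : Prop :=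
  ∀ (E : SSet.{u}) (p : E ⟶ D), IsRightFibration p →
    InternallyProjective k ((SSet.hoFunctor.map p).toFunctor.op ⋙ M)

end Pool.Agent.Q196.HI
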