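import Pool.Agent.Q196.HI.Coch

open CategoryTheory Simplicial Opposite

universe u

namespace Pool.Agent.Q196.HI

variable {k : Type u} [AddCommGroup k]

/-- simplices of the horn from monotone maps -/
def hs {n : ℕ} {i : Fin (n + 1)} {m : ℕ} (x : Fin (m + 1) →o Fin (n + 1))
    (hx : ∃ j, j ≠ i ∧ ∀ a, x a ≠ j) :
    ((Λ[n, i] : (Δ[n] : SSet.{u}).Subcomplex) : SSet.{u}) _⦋m⦌ :=
  ⟨SSet.stdSimplex.objMk x, by
    rw [SSet.mem_horn_iff_notMem_range]
    obtain ⟨j, hj, h⟩ := hx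
    exact ⟨j, hj, fun ⟨a, ha⟩ => h a ha⟩⟩

lemma hs_map {n : ℕ} {i : Fin (n + 1)} {m m' : ℕ} (x : Fin (m + 1) →o Fin (n + 1))
    (hx : ∃ j, j ≠ i ∧ ∀ a, x a ≠ j) (f : Fin (m' + 1) →o Fin (m + 1)) :
    ((Λ[n, i] : (Δ[n] : SSet.{u}).Subcomplex) : SSet.{u}).map
      (Quiver.Hom.op (SimplexCategory.Hom.mk f : ⦋m'⦌ ⟶ ⦋m⦌)) (hs x hx) =
      hs (x.comp f) (by obtain ⟨j, hj, h⟩ := hx; exact ⟨j, hj, fun a => h _⟩) := rfl

lemma exists_hs {n : ℕ} {i : Fin (n + 1)} {m : ℕ}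
    (s : ((Λ[n, i] : (Δ[n] : SSet.{u}).Subcomplex) : SSet.{u}) _⦋m⦌) :
    ∃ x hx, s = hs x hx := by
  obtain ⟨s, hs⟩ := s
  have h := hs
  rw [SSet.mem_horn_iff_notMem_range] at h
  obtain ⟨j, hj, h⟩ := h
  exact ⟨SSet.stdSimplex.asOrderHom s, ⟨j, hj, fun a ha => h ⟨a, ha⟩⟩, rfl⟩

/-- the monotone map `0 ↦ a, 1 ↦ b` -/
def pr {n : ℕ} (a b : Fin (n + 1)) (h : a ≤ b) : Fin (1 + 1) →o Fin (n + 1) where
  toFun := ![a, b]
  monotone' := by
    rw [Fin.monotone_iff_le_succ]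
    intro j
    fin_cases j
    exact h

/-- the monotone map `0 ↦ a, 1 ↦ b, 2 ↦ c` -/
def tr {n : ℕ} (a b c : Fin (n + 1)) (h : a ≤ b) (h' : b ≤ c) :
    Fin (2 + 1) →o Fin (n + 1) where
  toFun := ![a, b, c]
  monotone' := by
    rw [Fin.monotone_iff_le_succ]
    intro j
    fin_cases j
    · exact h
    · exact h'

lemma comp_pr {m n : ℕ} (x : Fin (m + 1) →o Fin (n + 1)) (a b : Fin (m + 1)) (h : a ≤ b) :
    x.comp (pr a b h) = pr (x a) (x b) (x.monotone h) := by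
  ext j
  fin_cases j <;> rfl

section

variable {n : ℕ} {i : Fin (n + 1)}
  (t : ((Λ[n, i] : (Δ[n] : SSet.{u}).Subcomplex) : SSet.{u}) ⟶ ES k)

/-- the value of a map `Λ[n,i] → E` on a simplex -/
def TE {m : ℕ} (x : Fin (m + 1) →o Fin (n + 1)) (hx : ∃ j, j ≠ i ∧ ∀ a, x a ≠ j) : ESimp k m :=
  t.app (op ⦋m⦌) (hs x hx)

lemma TE_pull {m m' : ℕ} (x : Fin (m + 1) →o Fin (n + 1)) (hx : ∃ j, j ≠ i ∧ ∀ a, x a ≠ j)
    (f : Fin (m' + 1) →o Fin (m + 1)) (hx' : ∃ j, j ≠ i ∧ ∀ a, (x.comp f) a ≠ j) :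
    TE t (x.comp f) hx' = (TE t x hx).pull f :=
  ConcreteCategory.congr_hom
    (t.naturality (Quiver.Hom.op (SimplexCategory.Hom.mk f : ⦋m'⦌ ⟶ ⦋m⦌))) (hs x hx)

open Classical in
/-- the value of a map `Λ[n,i] → E` on an edge -/
noncomputable def WE (a b : Fin (n + 1)) : k :=
  if h : a ≤ b ∧ ∃ j, j ≠ i ∧ a ≠ j ∧ b ≠ j then
    (TE t (pr a b h.1) (by
      obtain ⟨j, hj, h1, h2⟩ := h.2
      refine ⟨j, hj, fun e => ?_⟩
      fin_cases e
      · exact h1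
      · exact h2)).w 0 1 else 0

lemma TE_w {m : ℕ} (x : Fin (m + 1) →o Fin (n + 1)) (hx : ∃ j, j ≠ i ∧ ∀ a, x a ≠ j)
    {a b : Fin (m + 1)} (hab : a ≤ b) : (TE t x hx).w a b = WE t (x a) (x b) := by
  have h : x a ≤ x b ∧ ∃ j, j ≠ i ∧ x a ≠ j ∧ x b ≠ j := by
    obtain ⟨j, hj, h⟩ := hx
    exact ⟨x.monotone hab, j, hj, h a, h b⟩
  rw [WE, dif_pos h]
  have h1 : (TE t x hx).w a b = ((TE t x hx).pull (pr a b hab)).w 0 1 := rfl
  rw [h1, ← TE_pull t x hx (pr a b hab) (by obtain ⟨j, hj, h⟩ := hx; exact ⟨j, hj, fun e => h _⟩)]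
  congr 2
  exact comp_pr x a b hab

lemma WE_self (a : Fin (n + 1)) : WE t a a = 0 := by
  by_cases h : ∃ j, j ≠ i ∧ a ≠ j
  · obtain ⟨j, hj, h⟩ := h
    have h1 := TE_w t (m := 0) (OrderHom.const _ a) ⟨j, hj, fun _ => h⟩ (le_refl (0 : Fin 1))
    rw [ESimp.w_out _ _ _ (lt_irrefl _)] at h1
    exact h1.symm
  · rw [WE, dif_neg]
    rintro ⟨-, j, hj, h1, -⟩
    exact h ⟨j, hj, h1⟩

variable (β : DSimp k n) (hβ : ∀ {m : ℕ} (x : Fin (m + 1) →o Fin (n + 1))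
  (hx : ∃ j, j ≠ i ∧ ∀ a, x a ≠ j), (TE t x hx).d = β.pull x)

include hβ

lemma WE_rel {a b c : Fin (n + 1)} (hab : a ≤ b) (hbc : b ≤ c)
    (h : ∃ j, j ≠ i ∧ a ≠ j ∧ b ≠ j ∧ c ≠ j) :
    WE t a b + WE t b c - WE t a c = β.z a b c := by
  have hx : ∃ j, j ≠ i ∧ ∀ e, (tr a b c hab hbc) e ≠ j := by
    obtain ⟨j, hj, h1, h2, h3⟩ := h
    refine ⟨j, hj, fun e => ?_⟩
    fin_cases e
    · exact h1
    · exact h2
    · exact h3
  have h1 := congrArg (fun s => s.z 0 1 2) (hβ (tr a b c hab hbc) hx)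
  have h01 : (0 : Fin (2 + 1)) ≤ 1 := by decide
  have h12 : (1 : Fin (2 + 1)) ≤ 2 := by decide
  have h02 : (0 : Fin (2 + 1)) ≤ 2 := by decide
  rw [ESimp.d_z _ h01 h12, TE_w t _ hx h01, TE_w t _ hx h12, TE_w t _ hx h02] at h1
  exact h1

/-- potential -/
noncomputable def phi (a : Fin (n + 1)) : k :=
  if i ≤ a then WE t i a - β.z 0 i a else - (WE t a i - β.z 0 a i)

omit hβ in
lemma w0_rel {a b c : Fin (n + 1)} (hab : a ≤ b) (hbc : b ≤ c) :
    β.z 0 a b + β.z 0 b c - β.z 0 a c = β.z a b c := by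
  have := β.cocycle 0 a b c (Fin.zero_le _) hab hbc
  rw [sub_eq_iff_eq_add, this]
  abel

lemma key_phi {a b : Fin (n + 1)} (hab : a ≤ b) (h : ∃ j, j ≠ i ∧ a ≠ j ∧ b ≠ j) :
    β.z 0 a b + phi t β b - phi t β a = WE t a b := by
  obtain ⟨j, hj, h1, h2⟩ := h
  unfold phi
  rcases le_or_gt i a with hi | hi
  · rw [if_pos (hi.trans hab), if_pos hi]
    have r1 := WE_rel t β hβ hi hab ⟨j, hj, hj.symm, h1, h2⟩
    rw [← w0_rel β hi hab] at r1
    have : WE t a b = WE t i b - WE t i a + (WE t i a + WE t a b - WE t i b) := by abel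
    rw [this, r1]
    abel
  · rcases le_or_gt i b with hi' | hi'
    · rw [if_pos hi', if_neg (not_le.2 hi)]
      have r1 := WE_rel t β hβ hi.le hi' ⟨j, hj, h1, hj.symm, h2⟩
      rw [← w0_rel β hi.le hi'] at r1
      have : WE t a b = WE t a i + WE t i b - (WE t a i + WE t i b - WE t a b) := by abel
      rw [this, r1]
      abel
    · rw [if_neg (not_le.2 hi'), if_neg (not_le.2 hi)]
      have r1 := WE_rel t β hβ hab hi'.le ⟨j, hj, h1, h2, hj.symm⟩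
      rw [← w0_rel β hab hi'.le] at r1
      have : WE t a b = (WE t a b + WE t b i - WE t a i) + WE t a i - WE t b i := by abel
      rw [this, r1]
      abel

/-- the filler -/
noncomputable def fillE : ESimp k n where
  τ := β.τ
  w a b := if a < b then β.z 0 a b + phi t β b - phi t β a else 0
  w_out a b h := by simp [h]
  cocycle a b c hab hbc hc := by
    have key : ∀ a b, a ≤ b → (if a < b then β.z 0 a b + phi t β b - phi t β a else 0) =
        β.z 0 a b + phi t β b - phi t β a := by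
      intro a b hab
      rcases hab.eq_or_lt with rfl | hab
      · simp [β.z_out 0 a a (fun h => lt_irrefl _ h.2)]
      · simp [hab]
    rw [key a b hab, key b c hbc, key a c (hab.trans hbc)]
    have h1 := w0_rel β hab hbc
    rw [β.z_zero a b c hc, sub_eq_zero] at h1
    rw [← h1]
    abel

omit hβ in
lemma fillE_w {a b : Fin (n + 1)} (hab : a ≤ b) :
    (fillE t β).w a b = β.z 0 a b + phi t β b - phi t β a := by
  change (if a < b then β.z 0 a b + phi t β b - phi t β a else 0) = _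
  rcases hab.eq_or_lt with rfl | hab
  · simp [β.z_out 0 a a (fun h => lt_irrefl _ h.2)]
  · simp [hab]

omit hβ in
lemma fillE_d : (fillE t β).d = β := by
  ext1
  · rfl
  · funext a b c
    rcases lt_or_ge a b with hab | hab
    · rcases lt_or_ge b c with hbc | hbc
      · rw [ESimp.d_z _ hab.le hbc.le, fillE_w t β hab.le, fillE_w t β hbc.le,
          fillE_w t β (hab.le.trans hbc.le), ← w0_rel β hab.le hbc.le]
        abel
      · rw [DSimp.z_out _ _ _ _ (fun h => absurd h.2 (not_lt.2 hbc)),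
          DSimp.z_out _ _ _ _ (fun h => absurd h.2 (not_lt.2 hbc))]
    · rw [DSimp.z_out _ _ _ _ (fun h => absurd h.1 (not_lt.2 hab)),
        DSimp.z_out _ _ _ _ (fun h => absurd h.1 (not_lt.2 hab))]

lemma fillE_pull {m : ℕ} (x : Fin (m + 1) →o Fin (n + 1))
    (hx : ∃ j, j ≠ i ∧ ∀ a, x a ≠ j) : (fillE t β).pull x = TE t x hx := by
  ext1
  · exact (congrArg DSimp.τ (hβ x hx)).symm
  · funext a b
    rcases lt_or_ge a b with hab | hab
    · rw [TE_w t x hx hab.le]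
      change (fillE t β).w (x a) (x b) = _
      rw [fillE_w t β (x.monotone hab.le)]
      obtain ⟨j, hj, h⟩ := hx
      exact key_phi t β hβ (x.monotone hab.le) ⟨j, hj, h a, h b⟩
    · rw [ESimp.w_out _ _ _ (not_lt.2 hab), ESimp.w_out _ _ _ (not_lt.2 hab)]

end

theorem pED_lifting {n : ℕ} (i : Fin (n + 1)) :
    HasLiftingProperty (Λ[n, i] : (Δ[n] : SSet.{u}).Subcomplex).ι (pED k) where
  sq_hasLift {t b} sq := by
    let β : DSimp k n := SSet.yonedaEquiv b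
    have hβ : ∀ {m : ℕ} (x : Fin (m + 1) →o Fin (n + 1))
        (hx : ∃ j, j ≠ i ∧ ∀ a, x a ≠ j), (TE t x hx).d = β.pull x := by
      intro m x hx
      have h1 := congrArg (fun f => f.app (op ⦋m⦌) (hs x hx)) sq.w
      refine Eq.trans h1 ?_
      have h2 : b = SSet.yonedaEquiv.symm β := by simp [β]
      rw [h2]
      rfl
    refine ⟨⟨⟨SSet.yonedaEquiv.symm (fillE t β), ?_, ?_⟩⟩⟩
    · ext ⟨⟨m⟩⟩ s
      obtain ⟨x, hx, rfl⟩ := exists_hs s
      exact fillE_pull t β hβ x hx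
    · apply SSet.yonedaEquiv.injective
      rw [SSet.yonedaEquiv_comp]
      simp only [Equiv.apply_symm_apply]
      exact fillE_d t β

theorem pED_rightFibration : IsRightFibration (pED k) := fun _ i _ => pED_lifting i

end Pool.Agent.Q196.HI
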