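import Pool.Agent.Q196.HI.Defs

open CategoryTheory Simplicial Opposite

universe u v w w'

namespace Pool.Agent.Q196.HI

/-- over a field a linear map extends along a monomorphism -/
lemma exists_ext {k : Type u} [Field k] {A B I : ModuleCat.{u} k} (i : A ⟶ B) [Mono i]
    (f : A ⟶ I) : ∃ g : B ⟶ I, i ≫ g = f := by
  have hi : Function.Injective i.hom := (ModuleCat.mono_iff_injective i).1 inferInstance
  obtain ⟨r, hr⟩ := LinearMap.exists_leftInverse_of_injective i.hom (LinearMap.ker_eq_bot.2 hi)
  refine ⟨ModuleCat.ofHom (f.hom ∘ₗ r), ?_⟩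
  ext x
  have := congrArg (fun φ => f.hom (φ x)) hr
  simpa using this

/-- If every slice category of `C` has an initial object, then every presheaf of `k`-vector
spaces on `C` all of whose transition maps are isomorphisms is internally injective. -/
theorem internallyInjective_of_initial (k : Type u) [Field k] {C : Type u} [Category.{u} C]
    (I : Cᵒᵖ ⥤ ModuleCat.{u} k) (hI : ∀ ⦃x y : Cᵒᵖ⦄ (f : x ⟶ y), IsIso (I.map f))
    (h : ∀ c : C, Limits.HasInitial (Over c)) : InternallyInjective k I := by
  intro A B i _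
  rw [NatTrans.epi_iff_epi_app]
  rintro ⟨c⟩
  rw [epi_iff_surjective]
  intro f
  change (Over.forget c).op ⋙ A ⟶ (Over.forget c).op ⋙ I at f
  have := h c
  let f' : ∀ j : Over c, A.obj (op j.left) ⟶ I.obj (op j.left) := fun j => f.app (op j)
  have hf' : ∀ {j j' : Over c} (g : j ⟶ j'), A.map g.left.op ≫ f' j = f' j' ≫ I.map g.left.op :=
    fun g => f.naturality g.op
  let j₀ : Over c := ⊥_ (Over c)
  let t : ∀ j : Over c, j₀.left ⟶ j.left := fun j => (Limits.initial.to j : j₀ ⟶ j).left
  have ht : ∀ {j j' : Over c} (g : j ⟶ j'), t j ≫ g.left = t j' := fun g => by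
    have h1 : (Limits.initial.to _ : j₀ ⟶ _) ≫ g = Limits.initial.to _ :=
      Limits.initial.hom_ext _ _
    exact congrArg CommaMorphism.left h1
  obtain ⟨g₀, hg₀⟩ := exists_ext (i.app (op j₀.left)) (f' j₀)
  have hinv : ∀ j : Over c, IsIso (I.map (t j).op) := fun j => hI _
  let g' : ∀ j : Over c, B.obj (op j.left) ⟶ I.obj (op j.left) := fun j =>
    B.map (t j).op ≫ g₀ ≫ inv (I.map (t j).op)
  have hg' : ∀ {j j' : Over c} (g : j ⟶ j'),
      B.map g.left.op ≫ g' j = g' j' ≫ I.map g.left.op := by
    intro j j' g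
    have h2 : (t j').op = g.left.op ≫ (t j).op := by
      rw [← op_comp, ht g]
    dsimp only [g']
    rw [← cancel_mono (I.map (t j).op)]
    simp only [Category.assoc, IsIso.inv_hom_id, Category.comp_id]
    rw [← I.map_comp, ← h2, IsIso.inv_hom_id, Category.comp_id, ← B.map_comp_assoc, ← h2]
  have hig : ∀ j : Over c, i.app (op j.left) ≫ g' j = f' j := by
    intro j
    dsimp only [g']
    rw [← cancel_mono (I.map (t j).op)]
    simp only [Category.assoc, IsIso.inv_hom_id, Category.comp_id]
    rw [← i.naturality_assoc, hg₀]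
    exact hf' (Limits.initial.to j : j₀ ⟶ j)
  refine ⟨(⟨fun j => g' j.unop, fun j j' g => hg' g.unop⟩ :
    (Over.forget c).op ⋙ B ⟶ (Over.forget c).op ⋙ I), ?_⟩
  apply NatTrans.ext
  funext j
  exact hig j.unop

end Pool.Agent.Q196.HI
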