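import Pool.Agent.Q196.HI.Lift
import Pool.Agent.Q196.HI.Inj

open CategoryTheory Simplicial Opposite SimplexCategory.Truncated SimplicialObject.Truncated

universe u

namespace Pool.Agent.Q196.HI

open SSet.Truncated

lemma mk_inj {V : SSet.Truncated.{u} 2} {x y : V _⦋0⦌₂}
    (h : HomotopyCategory.mk x = HomotopyCategory.mk y) : x = y :=
  congrArg (fun z : V.HomotopyCategory => z.as.as) h

variable {F : SSet.{u}} {q : F ⟶ Δ[1]}

/-- the truncation of a right fibration over `Δ[1]` is a `2`-truncated quasicategory -/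
lemma quasi₂ (hq : IsRightFibration q) : Quasicategory₂ (FV F) where
  fill21 e₀₁ e₁₂ := fill21 hq e₀₁ e₁₂
  fill31 f₃ f₀ f₂ := fill31 hq f₃ f₀ f₂
  fill32 f₃ f₀ f₁ := fill32 hq f₃ f₀ f₁

/-- every morphism of the homotopy category is given by an edge -/
lemma exists_homMk (hq : IsRightFibration q) {x y : (FV F) _⦋0⦌₂}
    (f : HomotopyCategory.mk x ⟶ HomotopyCategory.mk y) :
    ∃ e : Edge x y, f = HomotopyCategory.homMk e := by
  let W : MorphismProperty (FV F).HomotopyCategory := fun X Y f =>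
    ∀ (x y : (FV F) _⦋0⦌₂) (hx : X = HomotopyCategory.mk x) (hy : Y = HomotopyCategory.mk y),
      ∃ e : Edge x y, f = eqToHom hx ≫ HomotopyCategory.homMk e ≫ eqToHom hy.symm
  have hW : W.IsMultiplicative :=
    { id_mem := by
        rintro X x y hx hy
        subst hx
        have := mk_inj hy
        subst this
        exact ⟨.id x, by simp⟩
      comp_mem := by
        rintro X Y Z f g hf hg x z hx hz
        obtain ⟨y, hy⟩ := HomotopyCategory.mk_surjective Y
        obtain ⟨e, he⟩ := hf x y hx hy.symm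
        obtain ⟨e', he'⟩ := hg y z hy.symm hz
        obtain ⟨⟨e'', h⟩⟩ := fill21 hq e e'
        refine ⟨e'', ?_⟩
        rw [he, he', ← HomotopyCategory.homMk_comp_homMk h]
        simp }
  have htop : W = ⊤ := HomotopyCategory.morphismProperty_eq_top (by
    intro x y e x' y' hx hy
    have h1 := mk_inj hx
    have h2 := mk_inj hy
    subst h1
    subst h2
    exact ⟨e, by simp⟩)
  have hf : W f := by rw [htop]; trivial
  obtain ⟨e, he⟩ := hf x y rfl rfl
  exact ⟨e, by simpa using he⟩

lemma comp_iff (hq : IsRightFibration q) {x₀ x₁ x₂ : (FV F) _⦋0⦌₂} (e₀₁ : Edge x₀ x₁)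
    (e₁₂ : Edge x₁ x₂) (e₀₂ : Edge x₀ x₂)
    (h : HomotopyCategory.homMk e₀₁ ≫ HomotopyCategory.homMk e₁₂ = HomotopyCategory.homMk e₀₂) :
    Nonempty (Edge.CompStruct e₀₁ e₁₂ e₀₂) := by
  have := quasi₂ hq
  rw [Edge.CompStruct.nonempty_iff]
  let Θ : (FV F).HomotopyCategory ⥤ HomotopyCategory₂ (FV F) :=
    HomotopyCategory.lift (fun x => HomotopyCategory₂.mk x)
      (fun e => HomotopyCategory₂.homMk e)
      (fun x => rfl)
      (fun h => h.homotopyCategory₂_fac)
  have hΘ : ∀ {x y : (FV F) _⦋0⦌₂} (e : Edge x y),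
      Θ.map (HomotopyCategory.homMk e) = HomotopyCategory₂.homMk e := by
    intro x y e
    apply HomotopyCategory.lift_map_homMk
  have h1 := congrArg Θ.map h
  rw [Θ.map_comp, hΘ, hΘ, hΘ] at h1
  exact h1

/-- over `c`, an edge whose source has type `0` is an initial object of the slice -/
theorem isInitial_mk (hq : IsRightFibration q) {x₀ c : (FV F) _⦋0⦌₂} (e₀ : Edge x₀ c)
    (h₀ : tv q x₀ = 0) :
    Nonempty (Limits.IsInitial (Over.mk (HomotopyCategory.homMk e₀))) := by
  let j₀ : Over (HomotopyCategory.mk c) := Over.mk (HomotopyCategory.homMk e₀)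
  have hex : ∀ j : Over (HomotopyCategory.mk c), Nonempty (j₀ ⟶ j) := by
    rintro j
    obtain ⟨x, hx⟩ := HomotopyCategory.mk_surjective j.left
    obtain ⟨u, hu⟩ := exists_homMk hq (eqToHom hx ≫ j.hom)
    obtain ⟨⟨v, hv⟩⟩ := fill22 hq u e₀ (by rw [h₀]; exact Fin.zero_le _)
    refine ⟨Over.homMk (HomotopyCategory.homMk v ≫ eqToHom hx) ?_⟩
    rw [Category.assoc, hu]
    exact HomotopyCategory.homMk_comp_homMk hv
  have huniq : ∀ (j : Over (HomotopyCategory.mk c)) (f g : j₀ ⟶ j), f = g := by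
    rintro j f g
    obtain ⟨x, hx⟩ := HomotopyCategory.mk_surjective j.left
    obtain ⟨u, hu⟩ := exists_homMk hq (eqToHom hx ≫ j.hom)
    obtain ⟨v, hv⟩ := exists_homMk (x := x₀) hq (f.left ≫ eqToHom hx.symm)
    obtain ⟨v', hv'⟩ := exists_homMk (x := x₀) hq (g.left ≫ eqToHom hx.symm)
    have c1 : HomotopyCategory.homMk v ≫ HomotopyCategory.homMk u =
        HomotopyCategory.homMk e₀ := by
      rw [← hv, ← hu]
      simp only [Category.assoc, eqToHom_trans_assoc, eqToHom_refl, Category.id_comp]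
      exact Over.w f
    have c2 : HomotopyCategory.homMk v' ≫ HomotopyCategory.homMk u =
        HomotopyCategory.homMk e₀ := by
      rw [← hv', ← hu]
      simp only [Category.assoc, eqToHom_trans_assoc, eqToHom_refl, Category.id_comp]
      exact Over.w g
    obtain ⟨s1⟩ := comp_iff hq _ _ _ c1
    obtain ⟨s2⟩ := comp_iff hq _ _ _ c2
    obtain ⟨s⟩ := fill33 hq (.id x₀) s2 s1 (Edge.CompStruct.idComp e₀)
    have h1 := HomotopyCategory.homMk_comp_homMk s
    rw [HomotopyCategory.homMk_id, Category.id_comp, ← hv, ← hv'] at h1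
    ext1
    rw [← cancel_mono (eqToHom hx.symm)]
    exact h1.symm
  exact ⟨Limits.IsInitial.ofUniqueHom (fun j => (hex j).some)
    (fun j m => huniq j m _)⟩

/-- the slices of the homotopy category of a right fibration over `Δ[1]` have initial objects -/
theorem hasInitial_over (hq : IsRightFibration q) (c : (FV F).HomotopyCategory) :
    Limits.HasInitial (Over c) := by
  obtain ⟨c, rfl⟩ := HomotopyCategory.mk_surjective c
  obtain ⟨x₀, e₀, h₀⟩ := exists_edge_to hq c
  exact (isInitial_mk hq e₀ h₀).some.hasInitial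

/-- an object of the slice whose source has type `0` is initial -/
theorem isInitial_of_tv (hq : IsRightFibration q) {c x : (FV F) _⦋0⦌₂}
    (j : Over (HomotopyCategory.mk c)) (hx : HomotopyCategory.mk x = j.left)
    (h : tv q x = 0) : Nonempty (Limits.IsInitial j) := by
  obtain ⟨u, hu⟩ := exists_homMk hq (eqToHom hx ≫ j.hom)
  obtain ⟨h1⟩ := isInitial_mk hq u h
  refine ⟨h1.ofIso (Over.isoMk (eqToIso hx) ?_)⟩
  exact hu

end Pool.Agent.Q196.HI
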