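import Pool.Agent.Q196.HI.Defs

open CategoryTheory Simplicial Opposite SimplexCategory.Truncated SimplicialObject.Truncated

universe u

namespace Pool.Agent.Q196.HI

open SSet.Truncated

variable {F : SSet.{u}} {q : F ⟶ Δ[1]}

/-- filling of horns from faces -/
lemma fill (hq : IsRightFibration q) {n : ℕ} (i : Fin (n + 2)) (hi : 0 < i)
    (s : Fin (n + 2) → F _⦋n⦌)
    (hs : SSet.horn.IsCompatible (i := i) (fun j _ => SSet.yonedaEquiv.symm (s j)))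
    (b : Fin (n + 2) →o Fin 2)
    (hb : ∀ j, j ≠ i → ∀ a, (q.app _ (s j)) a = b (j.succAbove a)) :
    ∃ σ : F _⦋n + 1⦌, (∀ j, j ≠ i → F.map (SimplexCategory.δ j).op σ = s j) ∧
      ∀ a, (q.app _ σ) a = b a := by
  have := hq n i hi
  let b' : (Δ[n + 1] : SSet.{u}) ⟶ Δ[1] := SSet.yonedaEquiv.symm (SSet.stdSimplex.objMk b)
  have sq : CommSq hs.desc Λ[n + 1, i].ι q b' := by
    constructor
    apply SSet.horn.hom_ext'
    intro j hj
    rw [← Category.assoc, hs.ι_desc j hj, ← Category.assoc, SSet.horn.ι_ι]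
    apply SSet.yonedaEquiv.injective
    rw [SSet.yonedaEquiv_comp, Equiv.apply_symm_apply]
    apply SSet.stdSimplex.ext
    intro a
    rw [hb j hj a]
    rfl
  refine ⟨SSet.yonedaEquiv sq.lift, fun j hj => ?_, fun a => ?_⟩
  swap
  · have h2 : q.app _ (SSet.yonedaEquiv sq.lift) = SSet.stdSimplex.objMk b := by
      rw [← SSet.yonedaEquiv_comp, sq.fac_right]
      exact Equiv.apply_symm_apply _ _
    rw [h2]
    rfl
  have h1 : SSet.stdSimplex.δ j ≫ sq.lift = SSet.yonedaEquiv.symm (s j) := by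
    rw [← SSet.horn.ι_ι i j hj, Category.assoc, sq.fac_left, hs.ι_desc j hj]
  have h2 := congrArg SSet.yonedaEquiv h1
  rw [Equiv.apply_symm_apply] at h2
  rw [← h2]
  exact SSet.yonedaEquiv_naturality _ _

/-- the truncation -/
abbrev FV (F : SSet.{u}) : SSet.Truncated.{u} 2 := (SSet.truncation 2).obj F

/-- the type (`0` or `1`) of a vertex -/
def tv (q : F ⟶ Δ[1]) (x : (FV F) _⦋0⦌₂) : Fin 2 :=
  (q.app (op ⦋0⦌) x : (Δ[1] : SSet.{u}) _⦋0⦌) 0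

/-- type of the vertices of a simplex -/
def qt (q : F ⟶ Δ[1]) {n : ℕ} (s : F _⦋n⦌) (a : Fin (n + 1)) : Fin 2 :=
  (q.app (op ⦋n⦌) s : (Δ[1] : SSet.{u}) _⦋n⦌) a

lemma qt_map {m n : ℕ} (s : F _⦋n⦌) (f : ⦋m⦌ ⟶ ⦋n⦌) (a : Fin (m + 1)) :
    qt q (F.map f.op s : F _⦋m⦌) a = qt q s (f.toOrderHom a) := by
  unfold qt
  have h := ConcreteCategory.congr_hom (q.naturality f.op) s
  have h1 : q.app (op ⦋m⦌) (F.map f.op s) = (Δ[1] : SSet.{u}).map f.op (q.app (op ⦋n⦌) s) := h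
  rw [h1]
  rfl

section

variable {x y : (FV F) _⦋0⦌₂} (e : Edge x y)

/-- the underlying simplex of an edge -/
def eF : F _⦋1⦌ := e.edge

lemma eF_src : F.map (SimplexCategory.δ 1).op (eF e) = x := e.src_eq

lemma eF_tgt : F.map (SimplexCategory.δ 0).op (eF e) = y := e.tgt_eq

lemma qt_e0 : qt q (eF e) 0 = tv q x := by
  conv_rhs => rw [← eF_src e]
  exact (qt_map (eF e) (SimplexCategory.δ 1) 0).symm

lemma qt_e1 : qt q (eF e) 1 = tv q y := by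
  conv_rhs => rw [← eF_tgt e]
  exact (qt_map (eF e) (SimplexCategory.δ 0) 0).symm

include e in
lemma tv_le : tv q x ≤ tv q y := by
  rw [← qt_e0 e, ← qt_e1 e]
  exact SSet.stdSimplex.monotone_apply (q.app (op ⦋1⦌) (eF e) : (Δ[1] : SSet.{u}) _⦋1⦌) (by decide)

end

section

variable {x₀ x₁ x₂ : (FV F) _⦋0⦌₂} {e₀₁ : Edge x₀ x₁} {e₁₂ : Edge x₁ x₂} {e₀₂ : Edge x₀ x₂}
  (h : Edge.CompStruct e₀₁ e₁₂ e₀₂)

/-- the underlying simplex of a triangle -/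
def cF : F _⦋2⦌ := h.simplex

lemma cF_0 : F.map (SimplexCategory.δ 0).op (cF h) = eF e₁₂ := h.d₀
lemma cF_1 : F.map (SimplexCategory.δ 1).op (cF h) = eF e₀₂ := h.d₁
lemma cF_2 : F.map (SimplexCategory.δ 2).op (cF h) = eF e₀₁ := h.d₂

lemma qt_c0 : qt q (cF h) 0 = tv q x₀ := by
  rw [← qt_e0 e₀₁, ← cF_2 h]
  exact (qt_map (cF h) (SimplexCategory.δ 2) 0).symm

lemma qt_c1 : qt q (cF h) 1 = tv q x₁ := by
  rw [← qt_e1 e₀₁, ← cF_2 h]
  exact (qt_map (cF h) (SimplexCategory.δ 2) 1).symm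

lemma qt_c2 : qt q (cF h) 2 = tv q x₂ := by
  rw [← qt_e1 e₁₂, ← cF_0 h]
  exact (qt_map (cF h) (SimplexCategory.δ 0) 1).symm

end

lemma compat_of {n : ℕ} {i : Fin (n + 3)} (s : Fin (n + 3) → F _⦋n + 1⦌)
    (h : ∀ (j k : Fin (n + 3)), j ≠ i → k ≠ i → ∀ (hjk : j < k),
      F.map (SimplexCategory.δ (k.pred (Fin.ne_zero_of_lt hjk))).op (s j) =
      F.map (SimplexCategory.δ (j.castPred (Fin.ne_last_of_lt hjk))).op (s k)) :
    SSet.horn.IsCompatible (i := i) (fun j _ => SSet.yonedaEquiv.symm (s j)) := by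
  rw [SSet.horn.isCompatible_iff]
  intro j k hj hk hjk
  have e1 := SSet.yonedaEquiv_symm_naturality_left
    (SimplexCategory.δ (k.pred (Fin.ne_zero_of_lt hjk))) (s j)
  have e2 := SSet.yonedaEquiv_symm_naturality_left
    (SimplexCategory.δ (j.castPred (Fin.ne_last_of_lt hjk))) (s k)
  exact e1.trans ((congrArg SSet.yonedaEquiv.symm (h j k hj hk hjk)).trans e2.symm)

lemma mm {a b b' c : SimplexCategory} {f : a ⟶ b} {g : b ⟶ c} {f' : a ⟶ b'} {g' : b' ⟶ c}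
    (h : f ≫ g = f' ≫ g') (σ : F.obj (op c)) :
    F.map f.op (F.map g.op σ) = F.map f'.op (F.map g'.op σ) := by
  rw [← Functor.map_comp_apply, ← Functor.map_comp_apply, ← op_comp, ← op_comp, h]

/-- an edge ending at a given vertex whose source has type `0` -/
lemma exists_edge_to (hq : IsRightFibration q) (c : (FV F) _⦋0⦌₂) :
    ∃ (x : (FV F) _⦋0⦌₂) (_ : Edge x c), tv q x = 0 := by
  let b : Fin (0 + 2) →o Fin 2 := ⟨![0, tv q c], by
    rw [Fin.monotone_iff_le_succ]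
    intro j
    fin_cases j
    exact Fin.zero_le _⟩
  obtain ⟨σ, h1, h2⟩ := fill hq (n := 0) 1 (by decide) (fun _ => c) (by simp) b (by
    intro j hj a
    fin_cases j
    · fin_cases a
      rfl
    · exact absurd rfl hj)
  refine ⟨F.map (SimplexCategory.δ 1).op σ, ⟨σ, rfl, h1 0 (by decide)⟩, ?_⟩
  exact (qt_map (q := q) σ (SimplexCategory.δ 1) 0).trans (h2 0)

lemma fill21 (hq : IsRightFibration q) {x₀ x₁ x₂ : (FV F) _⦋0⦌₂} (e₀₁ : Edge x₀ x₁)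
    (e₁₂ : Edge x₁ x₂) : Nonempty (Σ e₀₂ : Edge x₀ x₂, Edge.CompStruct e₀₁ e₁₂ e₀₂) := by
  let b : Fin (1 + 2) →o Fin 2 := ⟨![tv q x₀, tv q x₁, tv q x₂], by
    rw [Fin.monotone_iff_le_succ]
    intro j
    fin_cases j
    · exact tv_le e₀₁
    · exact tv_le e₁₂⟩
  obtain ⟨σ, h1, -⟩ := fill hq (n := 1) 1 (by decide) ![eF e₁₂, eF e₁₂, eF e₀₁]
    (compat_of _ (by
      intro j k hj hk hjk
      have key : ∀ j k : Fin 3, j ≠ 1 → k ≠ 1 → j < k → j = 0 ∧ k = 2 := by decide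
      obtain ⟨rfl, rfl⟩ := key j k hj hk hjk
      exact (eF_src e₁₂).trans (eF_tgt e₀₁).symm)) b (by
    intro j hj a
    fin_cases j
    · fin_cases a
      · exact qt_e0 e₁₂
      · exact qt_e1 e₁₂
    · exact absurd rfl hj
    · fin_cases a
      · exact qt_e0 e₀₁
      · exact qt_e1 e₀₁)
  have h0 : F.map (SimplexCategory.δ 0).op σ = eF e₁₂ := h1 0 (by decide)
  have h2 : F.map (SimplexCategory.δ 2).op σ = eF e₀₁ := h1 2 (by decide)
  refine ⟨⟨⟨F.map (SimplexCategory.δ 1).op σ, ?_, ?_⟩, ⟨σ, h2, h0, rfl⟩⟩⟩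
  · refine (mm (g' := SimplexCategory.δ 2) (f' := SimplexCategory.δ 1) (by decide) σ).trans ?_
    rw [h2]
    exact eF_src e₀₁
  · refine (mm (g' := SimplexCategory.δ 0) (f' := SimplexCategory.δ 0) (by decide) σ).trans ?_
    rw [h0]
    exact eF_tgt e₁₂

lemma fill22 (hq : IsRightFibration q) {x₀ x₁ x₂ : (FV F) _⦋0⦌₂} (e₁₂ : Edge x₁ x₂)
    (e₀₂ : Edge x₀ x₂) (hle : tv q x₀ ≤ tv q x₁) :
    Nonempty (Σ e₀₁ : Edge x₀ x₁, Edge.CompStruct e₀₁ e₁₂ e₀₂) := by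
  let b : Fin (1 + 2) →o Fin 2 := ⟨![tv q x₀, tv q x₁, tv q x₂], by
    rw [Fin.monotone_iff_le_succ]
    intro j
    fin_cases j
    · exact hle
    · exact tv_le e₁₂⟩
  obtain ⟨σ, h1, -⟩ := fill hq (n := 1) 2 (by decide) ![eF e₁₂, eF e₀₂, eF e₀₂]
    (compat_of _ (by
      intro j k hj hk hjk
      have key : ∀ j k : Fin 3, j ≠ 2 → k ≠ 2 → j < k → j = 0 ∧ k = 1 := by decide
      obtain ⟨rfl, rfl⟩ := key j k hj hk hjk
      exact (eF_tgt e₁₂).trans (eF_tgt e₀₂).symm)) b (by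
    intro j hj a
    fin_cases j
    · fin_cases a
      · exact qt_e0 e₁₂
      · exact qt_e1 e₁₂
    · fin_cases a
      · exact qt_e0 e₀₂
      · exact qt_e1 e₀₂
    · exact absurd rfl hj)
  have h0 : F.map (SimplexCategory.δ 0).op σ = eF e₁₂ := h1 0 (by decide)
  have h2 : F.map (SimplexCategory.δ 1).op σ = eF e₀₂ := h1 1 (by decide)
  refine ⟨⟨⟨F.map (SimplexCategory.δ 2).op σ, ?_, ?_⟩, ⟨σ, rfl, h0, h2⟩⟩⟩
  · refine (mm (g' := SimplexCategory.δ 1) (f' := SimplexCategory.δ 1) (by decide) σ).trans ?_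
    rw [h2]
    exact eF_src e₀₂
  · refine (mm (g' := SimplexCategory.δ 0) (f' := SimplexCategory.δ 1) (by decide) σ).trans ?_
    rw [h0]
    exact eF_src e₁₂

section

variable {x₀ x₁ x₂ x₃ : (FV F) _⦋0⦌₂}
      {e₀₁ : Edge x₀ x₁} {e₁₂ : Edge x₁ x₂} {e₂₃ : Edge x₂ x₃}
      {e₀₂ : Edge x₀ x₂} {e₁₃ : Edge x₁ x₃} {e₀₃ : Edge x₀ x₃}

/-- types of the vertices of a 3-simplex -/
def b3 (q : F ⟶ Δ[1]) (e₀₁ : Edge x₀ x₁) (e₁₂ : Edge x₁ x₂) (e₂₃ : Edge x₂ x₃) :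
    Fin (2 + 2) →o Fin 2 :=
  ⟨![tv q x₀, tv q x₁, tv q x₂, tv q x₃], by
    rw [Fin.monotone_iff_le_succ]
    intro j
    fin_cases j
    · exact tv_le e₀₁
    · exact tv_le e₁₂
    · exact tv_le e₂₃⟩

lemma fill31 (hq : IsRightFibration q) (f₃ : Edge.CompStruct e₀₁ e₁₂ e₀₂)
    (f₀ : Edge.CompStruct e₁₂ e₂₃ e₁₃) (f₂ : Edge.CompStruct e₀₁ e₁₃ e₀₃) :
    Nonempty (Edge.CompStruct e₀₂ e₂₃ e₀₃) := by
  obtain ⟨σ, h1, -⟩ := fill hq (n := 2) 1 (by decide) ![cF f₀, cF f₀, cF f₂, cF f₃]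
    (compat_of _ (by
      intro j k hj hk hjk
      have key : ∀ j k : Fin 4, j ≠ 1 → k ≠ 1 → j < k →
        (j = 0 ∧ k = 2) ∨ (j = 0 ∧ k = 3) ∨ (j = 2 ∧ k = 3) := by decide
      obtain ⟨rfl, rfl⟩ | ⟨rfl, rfl⟩ | ⟨rfl, rfl⟩ := key j k hj hk hjk
      · exact (cF_1 f₀).trans (cF_0 f₂).symm
      · exact (cF_2 f₀).trans (cF_0 f₃).symm
      · exact (cF_2 f₂).trans (cF_2 f₃).symm)) (b3 q e₀₁ e₁₂ e₂₃) (by
    intro j hj a
    fin_cases j
    · fin_cases a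
      · exact qt_c0 f₀
      · exact qt_c1 f₀
      · exact qt_c2 f₀
    · exact absurd rfl hj
    · fin_cases a
      · exact qt_c0 f₂
      · exact qt_c1 f₂
      · exact qt_c2 f₂
    · fin_cases a
      · exact qt_c0 f₃
      · exact qt_c1 f₃
      · exact qt_c2 f₃)
  have h0 : F.map (SimplexCategory.δ 0).op σ = cF f₀ := h1 0 (by decide)
  have h2 : F.map (SimplexCategory.δ 2).op σ = cF f₂ := h1 2 (by decide)
  have h3 : F.map (SimplexCategory.δ 3).op σ = cF f₃ := h1 3 (by decide)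
  refine ⟨⟨F.map (SimplexCategory.δ 1).op σ, ?_, ?_, ?_⟩⟩
  · refine (mm (g' := SimplexCategory.δ 3) (f' := SimplexCategory.δ 1) (by decide) σ).trans ?_
    rw [h3]
    exact cF_1 f₃
  · refine (mm (g' := SimplexCategory.δ 0) (f' := SimplexCategory.δ 0) (by decide) σ).trans ?_
    rw [h0]
    exact cF_0 f₀
  · refine (mm (g' := SimplexCategory.δ 2) (f' := SimplexCategory.δ 1) (by decide) σ).trans ?_
    rw [h2]
    exact cF_1 f₂

lemma fill32 (hq : IsRightFibration q) (f₃ : Edge.CompStruct e₀₁ e₁₂ e₀₂)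
    (f₀ : Edge.CompStruct e₁₂ e₂₃ e₁₃) (f₁ : Edge.CompStruct e₀₂ e₂₃ e₀₃) :
    Nonempty (Edge.CompStruct e₀₁ e₁₃ e₀₃) := by
  obtain ⟨σ, h1, -⟩ := fill hq (n := 2) 2 (by decide) ![cF f₀, cF f₁, cF f₁, cF f₃]
    (compat_of _ (by
      intro j k hj hk hjk
      have key : ∀ j k : Fin 4, j ≠ 2 → k ≠ 2 → j < k →
        (j = 0 ∧ k = 1) ∨ (j = 0 ∧ k = 3) ∨ (j = 1 ∧ k = 3) := by decide
      obtain ⟨rfl, rfl⟩ | ⟨rfl, rfl⟩ | ⟨rfl, rfl⟩ := key j k hj hk hjk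
      · exact (cF_0 f₀).trans (cF_0 f₁).symm
      · exact (cF_2 f₀).trans (cF_0 f₃).symm
      · exact (cF_2 f₁).trans (cF_1 f₃).symm)) (b3 q e₀₁ e₁₂ e₂₃) (by
    intro j hj a
    fin_cases j
    · fin_cases a
      · exact qt_c0 f₀
      · exact qt_c1 f₀
      · exact qt_c2 f₀
    · fin_cases a
      · exact qt_c0 f₁
      · exact qt_c1 f₁
      · exact qt_c2 f₁
    · exact absurd rfl hj
    · fin_cases a
      · exact qt_c0 f₃
      · exact qt_c1 f₃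
      · exact qt_c2 f₃)
  have h0 : F.map (SimplexCategory.δ 0).op σ = cF f₀ := h1 0 (by decide)
  have h2 : F.map (SimplexCategory.δ 1).op σ = cF f₁ := h1 1 (by decide)
  have h3 : F.map (SimplexCategory.δ 3).op σ = cF f₃ := h1 3 (by decide)
  refine ⟨⟨F.map (SimplexCategory.δ 2).op σ, ?_, ?_, ?_⟩⟩
  · refine (mm (g' := SimplexCategory.δ 3) (f' := SimplexCategory.δ 2) (by decide) σ).trans ?_
    rw [h3]
    exact cF_2 f₃
  · refine (mm (g' := SimplexCategory.δ 0) (f' := SimplexCategory.δ 1) (by decide) σ).trans ?_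
    rw [h0]
    exact cF_1 f₀
  · refine (mm (g' := SimplexCategory.δ 1) (f' := SimplexCategory.δ 1) (by decide) σ).trans ?_
    rw [h2]
    exact cF_1 f₁

lemma fill33 (hq : IsRightFibration q) (e₀₁ : Edge x₀ x₁) (f₀ : Edge.CompStruct e₁₂ e₂₃ e₁₃)
    (f₁ : Edge.CompStruct e₀₂ e₂₃ e₀₃) (f₂ : Edge.CompStruct e₀₁ e₁₃ e₀₃) :
    Nonempty (Edge.CompStruct e₀₁ e₁₂ e₀₂) := by
  obtain ⟨σ, h1, -⟩ := fill hq (n := 2) 3 (by decide) ![cF f₀, cF f₁, cF f₂, cF f₂]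
    (compat_of _ (by
      intro j k hj hk hjk
      have key : ∀ j k : Fin 4, j ≠ 3 → k ≠ 3 → j < k →
        (j = 0 ∧ k = 1) ∨ (j = 0 ∧ k = 2) ∨ (j = 1 ∧ k = 2) := by decide
      obtain ⟨rfl, rfl⟩ | ⟨rfl, rfl⟩ | ⟨rfl, rfl⟩ := key j k hj hk hjk
      · exact (cF_0 f₀).trans (cF_0 f₁).symm
      · exact (cF_1 f₀).trans (cF_0 f₂).symm
      · exact (cF_1 f₁).trans (cF_1 f₂).symm)) (b3 q e₀₁ e₁₂ e₂₃) (by
    intro j hj a
    fin_cases j
    · fin_cases a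
      · exact qt_c0 f₀
      · exact qt_c1 f₀
      · exact qt_c2 f₀
    · fin_cases a
      · exact qt_c0 f₁
      · exact qt_c1 f₁
      · exact qt_c2 f₁
    · fin_cases a
      · exact qt_c0 f₂
      · exact qt_c1 f₂
      · exact qt_c2 f₂
    · exact absurd rfl hj)
  have h0 : F.map (SimplexCategory.δ 0).op σ = cF f₀ := h1 0 (by decide)
  have h2 : F.map (SimplexCategory.δ 1).op σ = cF f₁ := h1 1 (by decide)
  have h3 : F.map (SimplexCategory.δ 2).op σ = cF f₂ := h1 2 (by decide)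
  refine ⟨⟨F.map (SimplexCategory.δ 3).op σ, ?_, ?_, ?_⟩⟩
  · refine (mm (g' := SimplexCategory.δ 2) (f' := SimplexCategory.δ 2) (by decide) σ).trans ?_
    rw [h3]
    exact cF_2 f₂
  · refine (mm (g' := SimplexCategory.δ 0) (f' := SimplexCategory.δ 2) (by decide) σ).trans ?_
    rw [h0]
    exact cF_2 f₀
  · refine (mm (g' := SimplexCategory.δ 1) (f' := SimplexCategory.δ 2) (by decide) σ).trans ?_
    rw [h2]
    exact cF_2 f₁

end

end Pool.Agent.Q196.HI
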