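import Pool.Agent.Q196.HI.ProjMod

open CategoryTheory Simplicial Opposite SimplexCategory.Truncated SimplicialObject.Truncated

universe u

namespace Pool.Agent.Q196.HI

open SSet.Truncated

variable {k : Type u} [Field k]

/-- the vertex of `Δ[1]` under a vertex of `E` -/
def rp (x : (EV k) _⦋0⦌₂) : (FV (Δ[1] : SSet.{u})) _⦋0⦌₂ :=
  ((SSet.truncation 2).map (rD k)).app _ (((SSet.truncation 2).map (pED k)).app _ x)

lemma tv_rp (x : (EV k) _⦋0⦌₂) : tv (𝟙 _) (rp x) = (vx x).τ 0 := rfl

/-- the second coordinate -/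
def sndB (x : (EV k) _⦋0⦌₂) : Bsub x →ₗ[k] csub k (rp x) :=
  LinearMap.codRestrict _ (LinearMap.snd k k k ∘ₗ (Bsub x).subtype) (by
    rintro ⟨v, hv⟩ h
    have := hv h
    simp [this])

lemma sndB_surj (x : (EV k) _⦋0⦌₂) : Function.Surjective (sndB x) := by
  rintro ⟨w, hw⟩
  exact ⟨⟨(0, w), fun h => by rw [hw h]; rfl⟩, rfl⟩

variable (k) in
/-- the module `(0 → k)` on `E`, in opposite form -/
def GF : (EV k).HomotopyCategory ⥤ (ModuleCat.{u} k)ᵒᵖ :=
  (SSet.hoFunctor.map (pED k)).toFunctor ⋙ (SSet.hoFunctor.map (rD k)).toFunctor ⋙ P01F k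

lemma GF_map {x y : (EV k) _⦋0⦌₂} (e : Edge x y) :
    (GF k).map (HomotopyCategory.homMk e) = (ModuleCat.ofHom (Cmap
      ((e.map ((SSet.truncation 2).map (pED k))).map ((SSet.truncation 2).map (rD k))))).op :=
  P01F_map ((e.map ((SSet.truncation 2).map (pED k))).map ((SSet.truncation 2).map (rD k)))

variable (k) in
/-- the second coordinate as a natural transformation -/
def sndF : GF k ⟶ BF k :=
  HomotopyCategory.mkNatTrans (fun x => (ModuleCat.ofHom (sndB x)).op) (by
    intro x y e
    rw [BF_map, GF_map]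
    rfl)

/-- the epimorphism `B ⟶ (0 → k)` -/
def sndN : (BF k).leftOp ⟶ (GF k).leftOp := NatTrans.leftOp (sndF k)

instance : Epi (sndN (k := k)) := by
  have : ∀ x, Epi ((sndN (k := k)).app x) := by
    rintro ⟨x⟩
    induction x using HomotopyCategory.cases_on with
    | h x =>
      rw [ModuleCat.epi_iff_surjective]
      exact sndB_surj x
  exact NatTrans.epi_of_epi_app _

theorem not_projective_E (M : (EV k).HomotopyCategoryᵒᵖ ⥤ ModuleCat.{u} k)
    (hM : M = (GF k).leftOp) :
    ¬ InternallyProjective k M := by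
  subst hM
  intro H
  have H1 := H (sndN (k := k))
  rw [NatTrans.epi_iff_epi_app] at H1
  have H2 := H1 (op (HomotopyCategory.mk pt))
  rw [epi_iff_surjective] at H2
  obtain ⟨g, hg⟩ := H2 (𝟙 ((Over.forget (HomotopyCategory.mk pt)).op ⋙ (GF k).leftOp))
  change (Over.forget (HomotopyCategory.mk pt)).op ⋙ (GF k).leftOp ⟶
    (Over.forget (HomotopyCategory.mk pt)).op ⋙ (BF k).leftOp at g
  change g ≫ Functor.whiskerLeft (Over.forget _).op (sndN (k := k)) = _ at hg
  let ε : HomotopyCategory.mk (star (k := k)) ⟶ HomotopyCategory.mk pt :=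
    HomotopyCategory.homMk epsE
  let l : HomotopyCategory.mk (star (k := k)) ⟶ HomotopyCategory.mk star :=
    HomotopyCategory.homMk loopE
  have hl : l ≫ ε = ε := HomotopyCategory.homMk_comp_homMk triE
  let o : Over (HomotopyCategory.mk (pt (k := k))) := Over.mk ε
  let lo : o ⟶ o := Over.homMk l hl
  let G : csub k (rp (star (k := k))) →ₗ[k] Bsub (star (k := k)) := (g.app (op o)).hom
  have hnat : ∀ v : csub k (rp (star (k := k))), G v = Bmap loopE (G v) := by
    intro v
    have h1 := congrArg (fun φ => φ.hom v) (g.naturality lo.op)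
    have h2 : ((Over.forget (HomotopyCategory.mk pt)).op ⋙ (BF k).leftOp).map lo.op =
        ModuleCat.ofHom (Bmap loopE) := congrArg Quiver.Hom.unop (BF_map (k := k) loopE)
    have h3 : ((Over.forget (HomotopyCategory.mk pt)).op ⋙ (GF k).leftOp).map lo.op =
        ModuleCat.ofHom (Cmap ((loopE.map ((SSet.truncation 2).map (pED k))).map
          ((SSet.truncation 2).map (rD k)))) :=
      congrArg Quiver.Hom.unop (GF_map (k := k) loopE)
    rw [h2, h3] at h1
    exact h1
  have hres : ∀ v : csub k (rp (star (k := k))), (G v : k × k).2 = v := by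
    intro v
    have h1 := congrArg (fun φ => (φ.app (op o)).hom v) hg
    exact congrArg Subtype.val h1
  have h1mem : (1 : k) ∈ csub k (rp (star (k := k))) := by
    intro h
    have h' : (vx (star (k := k))).τ 0 = 1 := h
    have hs0 : (vx (star (k := k))).τ 0 = 0 := rfl
    rw [hs0] at h'
    exact absurd h' (by decide)
  have h1 := congrArg Subtype.val (hnat ⟨1, h1mem⟩)
  have h2 := hres ⟨1, h1mem⟩
  rw [Bmap_coe] at h1
  have h3 : (ed (loopE (k := k))).w 0 1 = 1 := rfl
  rw [h3, U_apply, h2] at h1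
  have h4 := congrArg Prod.fst h1
  simp at h4

/-- over `D` the module `(0 → k)` is not HoTT-projective -/
theorem not_hottProj_D (k : Type u) [Field k] :
    ¬ HoTTProjective k (DS k) ((SSet.hoFunctor.map (rD k)).toFunctor.op ⋙ P01 k) := by
  intro H
  exact not_projective_E _ rfl (H (ES k) (pED k) pED_rightFibration)

end Pool.Agent.Q196.HI
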