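import Pool.Agent.Q196.HI.Defs

open CategoryTheory Simplicial Opposite

universe u v w w'

namespace Pool.Agent.Q196.HI

/-- over a field a linear map lifts along an epimorphism -/
lemma exists_lift {k : Type u} [Field k] {A B P : ModuleCat.{u} k} (p : B ⟶ A) [Epi p]
    (f : P ⟶ A) : ∃ g : P ⟶ B, g ≫ p = f := by
  have hp : Function.Surjective p.hom := (ModuleCat.epi_iff_surjective p).1 inferInstance
  have h1 : Module.Free k A := Module.Free.of_divisionRing k A
  have h2 : Module.Projective k A := Module.Projective.of_free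
  obtain ⟨r, hr⟩ := LinearMap.exists_rightInverse_of_surjective p.hom (LinearMap.range_eq_top.2 hp)
  refine ⟨ModuleCat.ofHom (r ∘ₗ f.hom), ?_⟩
  ext x
  have := congrArg (fun φ => φ (f.hom x)) hr
  simpa using this

/-- A criterion for internal projectivity. -/
def ProjCrit {k : Type u} [Field k] {C : Type u} [Category.{u} C]
    (Q : Cᵒᵖ ⥤ ModuleCat.{u} k) : Prop :=
  ∀ c : C, ∃ j₀ : Over c, ∀ j : Over c,
      (Subsingleton (j ⟶ j₀)) ∧ (∀ a : j ⟶ j₀, IsIso (Q.map a.left.op)) ∧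
      (IsEmpty (j ⟶ j₀) → Limits.IsZero (Q.obj (op j.left)))

lemma isIso_aux {k : Type u} [Field k] {C' : Type u} [Category.{u} C']
    (Q : C'ᵒᵖ ⥤ ModuleCat.{u} k) {X Y Z : C'} (f : X ⟶ Y) (g : Y ⟶ Z) [IsIso g]
    (h : IsIso (Q.map (f ≫ g).op)) : IsIso (Q.map f.op) := by
  rw [op_comp, Q.map_comp] at h
  exact IsIso.of_isIso_comp_left (Q.map g.op) (Q.map f.op)

lemma isIso_aux' {k : Type u} [Field k] {C' : Type u} [Category.{u} C']
    (Q : C'ᵒᵖ ⥤ ModuleCat.{u} k) {X Y Z : C'} (f : X ⟶ Y) (g : Y ⟶ Z) [IsIso f] {h : X ⟶ Z}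
    (hfg : f ≫ g = h) (H : IsIso (Q.map h.op)) : IsIso (Q.map g.op) := by
  rw [← hfg, op_comp, Q.map_comp] at H
  exact IsIso.of_isIso_comp_right (Q.map g.op) (Q.map f.op)

/-- The criterion is invariant under equivalences. -/
theorem ProjCrit.of_equiv {k : Type u} [Field k] {C C' : Type u} [Category.{u} C]
    [Category.{u} C'] (R : C ≌ C') {Q : C'ᵒᵖ ⥤ ModuleCat.{u} k} (h : ProjCrit Q) :
    ProjCrit (R.functor.op ⋙ Q) := by
  intro c
  obtain ⟨j₀', h⟩ := h (R.functor.obj c)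
  let E : Over c ≌ Over (R.functor.obj c) := Over.postEquiv c R
  let θ : E.functor.obj (E.inverse.obj j₀') ≅ j₀' := E.counitIso.app j₀'
  refine ⟨E.inverse.obj j₀', fun j => ?_⟩
  obtain ⟨h1, h2, h3⟩ := h (E.functor.obj j)
  refine ⟨⟨fun a b => ?_⟩, fun a => ?_, fun he => ?_⟩
  · apply E.functor.map_injective
    rw [← cancel_mono θ.hom]
    exact Subsingleton.elim _ _
  · have h4 := h2 (E.functor.map a ≫ θ.hom)
    exact isIso_aux Q (E.functor.map a).left θ.hom.left h4
  · exact h3 ⟨fun b => he.elim (E.functor.preimage (b ≫ θ.inv))⟩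

/-- A criterion for internal projectivity. -/
theorem internallyProjective_of (k : Type u) [Field k] {C : Type u} [Category.{u} C]
    (Q : Cᵒᵖ ⥤ ModuleCat.{u} k)
    (h : ProjCrit Q) :
    InternallyProjective k Q := by
  intro B A p _
  rw [NatTrans.epi_iff_epi_app]
  rintro ⟨c⟩
  rw [epi_iff_surjective]
  intro f
  change (Over.forget c).op ⋙ Q ⟶ (Over.forget c).op ⋙ A at f
  obtain ⟨j₀, hj₀⟩ := h c
  let f' : ∀ j : Over c, Q.obj (op j.left) ⟶ A.obj (op j.left) := fun j => f.app (op j)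
  have hf' : ∀ {j j' : Over c} (g : j ⟶ j'), Q.map g.left.op ≫ f' j = f' j' ≫ A.map g.left.op :=
    fun g => f.naturality g.op
  obtain ⟨g₀, hg₀⟩ := exists_lift (p.app (op j₀.left)) (f' j₀)
  have hex : ∀ j : Over c, ∃ gj : Q.obj (op j.left) ⟶ B.obj (op j.left),
      ∀ a : j ⟶ j₀, Q.map a.left.op ≫ gj = g₀ ≫ B.map a.left.op := by
    intro j
    by_cases hne : Nonempty (j ⟶ j₀)
    · obtain ⟨a⟩ := hne
      have := (hj₀ j).2.1 a
      refine ⟨inv (Q.map a.left.op) ≫ g₀ ≫ B.map a.left.op, fun b => ?_⟩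
      have hsub := (hj₀ j).1
      obtain rfl : a = b := Subsingleton.elim a b
      simp
    · exact ⟨0, fun a => absurd ⟨a⟩ hne⟩
  choose g' hg' using hex
  have hnat : ∀ {j j' : Over c} (m : j ⟶ j'),
      Q.map m.left.op ≫ g' j = g' j' ≫ B.map m.left.op := by
    intro j j' m
    by_cases hne : Nonempty (j' ⟶ j₀)
    · obtain ⟨a⟩ := hne
      have := (hj₀ j').2.1 a
      rw [← cancel_epi (Q.map a.left.op), ← Category.assoc, ← Q.map_comp, ← op_comp,
        ← Over.comp_left, hg' j (m ≫ a), ← Category.assoc, hg' j' a, Over.comp_left, op_comp,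
        B.map_comp, Category.assoc]
    · rw [not_nonempty_iff] at hne
      exact ((hj₀ j').2.2 hne).eq_of_src _ _
  have hgp : ∀ j : Over c, g' j ≫ p.app (op j.left) = f' j := by
    intro j
    by_cases hne : Nonempty (j ⟶ j₀)
    · obtain ⟨a⟩ := hne
      have := (hj₀ j).2.1 a
      rw [← cancel_epi (Q.map a.left.op), ← Category.assoc, hg' j a, Category.assoc,
        p.naturality, ← Category.assoc, hg₀, hf']
    · rw [not_nonempty_iff] at hne
      exact ((hj₀ j).2.2 hne).eq_of_src _ _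
  refine ⟨(⟨fun j => g' j.unop, fun j j' g => hnat g.unop⟩ :
    (Over.forget c).op ⋙ Q ⟶ (Over.forget c).op ⋙ B), ?_⟩
  apply NatTrans.ext
  funext j
  exact hgp j.unop

end Pool.Agent.Q196.HI
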