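import Pool.Agent.Q196.HI.Init
import Pool.Agent.Q196.HI.Proj
import Pool.Agent.Q196.HI.Neg
import Pool.Agent.Q196.HI.Base

open CategoryTheory Simplicial Opposite SimplexCategory.Truncated SimplicialObject.Truncated

universe u

namespace Pool.Agent.Q196.HI

open SSet.Truncated

section

variable {k : Type u} [Field k]

/-- `k` at the vertex `0`, zero at the vertex `1` -/
def csub (k : Type u) [Field k] (x : (FV (Δ[1] : SSet.{u})) _⦋0⦌₂) : Submodule k k where
  carrier := {v | tv (𝟙 _) x = 1 → v = 0}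
  add_mem' := by
    intro a b ha hb h
    rw [ha h, hb h, add_zero]
  zero_mem' := fun _ => rfl
  smul_mem' := by
    intro c a ha h
    rw [ha h, smul_zero]

lemma csub_mem {x y : (FV (Δ[1] : SSet.{u})) _⦋0⦌₂} (e : Edge x y) {v : k}
    (hv : v ∈ csub k y) : v ∈ csub k x := by
  intro hx
  have h1 := tv_le (q := 𝟙 _) e
  rw [hx] at h1
  exact hv (le_antisymm (Fin.le_last _) h1)

/-- transition map -/
def Cmap {x y : (FV (Δ[1] : SSet.{u})) _⦋0⦌₂} (e : Edge x y) : csub k y →ₗ[k] csub k x :=
  Submodule.inclusion (fun _ hv => csub_mem e hv)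

variable (k) in
/-- the functor -/
def P01F : (FV (Δ[1] : SSet.{u})).HomotopyCategory ⥤ (ModuleCat.{u} k)ᵒᵖ :=
  HomotopyCategory.lift (fun x => op (ModuleCat.of k (csub k x)))
    (fun e => (ModuleCat.ofHom (Cmap e)).op)
    (fun _ => rfl)
    (fun _ => rfl)

lemma P01F_map {x y : (FV (Δ[1] : SSet.{u})) _⦋0⦌₂} (e : Edge x y) :
    (P01F k).map (HomotopyCategory.homMk e) = (ModuleCat.ofHom (Cmap e)).op := by
  unfold P01F
  apply HomotopyCategory.lift_map_homMk
  intro _ _ _ _ _ _ h
  rfl

variable (k) in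
/-- The module `(0 → k)` on (the homotopy category of) `Δ[1]`: it is `k` at the vertex `0`
and zero at the vertex `1`. -/
def P01 : (SSet.hoFunctor.obj (Δ[1] : SSet.{u}))ᵒᵖ ⥤ ModuleCat.{u} k := (P01F k).leftOp

lemma Cmap_bij {x y : (FV (Δ[1] : SSet.{u})) _⦋0⦌₂} (e : Edge x y) (hy : tv (𝟙 _) y = 0) :
    IsIso (ModuleCat.ofHom (Cmap (k := k) e)) := by
  rw [ConcreteCategory.isIso_iff_bijective]
  constructor
  · exact Submodule.inclusion_injective (fun _ hv => csub_mem e hv)
  · rintro ⟨v, hv⟩
    refine ⟨⟨v, fun h => ?_⟩, rfl⟩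
    rw [hy] at h
    exact absurd h (by decide)

variable (k) in
theorem projCrit_interval {F : SSet.{u}} {q : F ⟶ Δ[1]} (hq : IsRightFibration q) :
    ProjCrit ((SSet.hoFunctor.map q).toFunctor.op ⋙ P01 k) := by
  intro c
  obtain ⟨c, rfl⟩ := HomotopyCategory.mk_surjective c
  obtain ⟨x₀, e₀, h₀⟩ := exists_edge_to hq c
  refine ⟨Over.mk (HomotopyCategory.homMk e₀), fun j => ?_⟩
  obtain ⟨x, hx⟩ := HomotopyCategory.mk_surjective j.left
  refine ⟨⟨fun a b => ?_⟩, fun a => ?_, fun hempty => ?_⟩
  · obtain ⟨e, -⟩ := exists_homMk (y := x₀) hq (eqToHom hx ≫ a.left)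
    have h1 := tv_le (q := q) e
    rw [h₀] at h1
    obtain ⟨hI⟩ := isInitial_of_tv hq j hx (le_antisymm h1 (Fin.zero_le _))
    exact hI.hom_ext a b
  · obtain ⟨e, he⟩ := exists_homMk (y := x₀) hq (eqToHom hx ≫ a.left)
    have h1 : IsIso (((SSet.hoFunctor.map q).toFunctor.op ⋙ P01 k).map
        (HomotopyCategory.homMk e).op) := by
      have h2 : ((SSet.hoFunctor.map q).toFunctor.op ⋙ P01 k).map
          (HomotopyCategory.homMk e).op =
          ModuleCat.ofHom (Cmap (e.map ((SSet.truncation 2).map q))) :=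
        congrArg Quiver.Hom.unop (P01F_map (k := k) (e.map ((SSet.truncation 2).map q)))
      rw [h2]
      exact Cmap_bij _ h₀
    exact isIso_aux' _ (eqToHom hx) a.left he h1
  · have h1 : tv q x = 1 := by
      rcases Fin.exists_fin_two.1 ⟨tv q x, rfl⟩ with h | h
      · obtain ⟨hI⟩ := isInitial_of_tv hq j hx h
        exact (hempty.false (hI.to _)).elim
      · exact h
    rw [← hx]
    have : Subsingleton (csub k (((SSet.truncation 2).map q).app _ x)) := by
      constructor
      rintro ⟨v, hv⟩ ⟨w, hw⟩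
      exact Subtype.ext ((hv h1).trans (hw h1).symm)
    exact ModuleCat.isZero_of_subsingleton (ModuleCat.of k (csub k (((SSet.truncation 2).map q).app _ x)))

/-- over `Δ[1]` the module `(0 → k)` is HoTT-projective -/
theorem hottProj_interval (k : Type u) [Field k] : HoTTProjective k Δ[1] (P01 k) :=
  fun _ _ hp => internallyProjective_of _ _ (projCrit_interval k hp)

/-- over `D` the module `(0 → k)` is internally projective -/
theorem internallyProjective_D (k : Type u) [Field k] :
    InternallyProjective k ((SSet.hoFunctor.map (rD k)).toFunctor.op ⋙ P01 k) := by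
  apply internallyProjective_of
  let e : SSet.hoFunctor.obj (DS k) ≅ SSet.hoFunctor.obj Δ[1] := asIso (SSet.hoFunctor.map (rD k))
  let e' := Cat.equivOfIso e
  have h1 : ProjCrit (P01 k) := by
    have h2 := projCrit_interval k (isRightFibration_id Δ[1])
    rw [CategoryTheory.Functor.map_id] at h2
    exact h2
  exact h1.of_equiv e'

end

end Pool.Agent.Q196.HI
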