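import Pool.Agent.Q196.HI.Fib

open CategoryTheory Simplicial Opposite

universe u

namespace Pool.Agent.Q196.HI

variable {k : Type u} [AddCommGroup k]

section

variable {n : ℕ} {i : Fin (n + 1)}
  (t : ((Λ[n, i] : (Δ[n] : SSet.{u}).Subcomplex) : SSet.{u}) ⟶ DS k)

/-- the value of a map `Λ[n,i] → D` on a simplex -/
def TD {m : ℕ} (x : Fin (m + 1) →o Fin (n + 1)) (hx : ∃ j, j ≠ i ∧ ∀ a, x a ≠ j) : DSimp k m :=
  t.app (op ⦋m⦌) (hs x hx)

lemma TD_pull {m m' : ℕ} (x : Fin (m + 1) →o Fin (n + 1)) (hx : ∃ j, j ≠ i ∧ ∀ a, x a ≠ j)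
    (f : Fin (m' + 1) →o Fin (m + 1)) (hx' : ∃ j, j ≠ i ∧ ∀ a, (x.comp f) a ≠ j) :
    TD t (x.comp f) hx' = (TD t x hx).pull f :=
  ConcreteCategory.congr_hom
    (t.naturality (Quiver.Hom.op (SimplexCategory.Hom.mk f : ⦋m'⦌ ⟶ ⦋m⦌))) (hs x hx)

lemma comp_tr {m n : ℕ} (x : Fin (m + 1) →o Fin (n + 1)) (a b c : Fin (m + 1)) (h : a ≤ b)
    (h' : b ≤ c) :
    x.comp (tr a b c h h') = tr (x a) (x b) (x c) (x.monotone h) (x.monotone h') := by
  ext j
  fin_cases j <;> rfl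

open Classical in
/-- the type of a vertex -/
noncomputable def T0 (a : Fin (n + 1)) : Fin 2 :=
  if h : ∃ j, j ≠ i ∧ a ≠ j then
    (TD t (m := 0) (OrderHom.const _ a) (by
      obtain ⟨j, hj, h1⟩ := h
      exact ⟨j, hj, fun _ => h1⟩)).τ 0 else 0

open Classical in
/-- the value on a triangle -/
noncomputable def Z (a b c : Fin (n + 1)) : k :=
  if h : a ≤ b ∧ b ≤ c ∧ ∃ j, j ≠ i ∧ a ≠ j ∧ b ≠ j ∧ c ≠ j then
    (TD t (tr a b c h.1 h.2.1) (by
      obtain ⟨j, hj, h1, h2, h3⟩ := h.2.2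
      refine ⟨j, hj, fun e => ?_⟩
      fin_cases e
      · exact h1
      · exact h2
      · exact h3)).z 0 1 2 else 0

lemma TD_τ {m : ℕ} (x : Fin (m + 1) →o Fin (n + 1)) (hx : ∃ j, j ≠ i ∧ ∀ a, x a ≠ j)
    (a : Fin (m + 1)) : (TD t x hx).τ a = T0 t (x a) := by
  have h : ∃ j, j ≠ i ∧ x a ≠ j := by
    obtain ⟨j, hj, h⟩ := hx
    exact ⟨j, hj, h a⟩
  rw [T0, dif_pos h]
  have h1 : (TD t x hx).τ a = ((TD t x hx).pull (m := 0) (OrderHom.const _ a)).τ 0 := rfl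
  rw [h1, ← TD_pull t x hx (m' := 0) (OrderHom.const _ a)
    (by obtain ⟨j, hj, h⟩ := hx; exact ⟨j, hj, fun e => h _⟩)]
  rfl

lemma TD_z {m : ℕ} (x : Fin (m + 1) →o Fin (n + 1)) (hx : ∃ j, j ≠ i ∧ ∀ a, x a ≠ j)
    {a b c : Fin (m + 1)} (hab : a ≤ b) (hbc : b ≤ c) :
    (TD t x hx).z a b c = Z t (x a) (x b) (x c) := by
  have h : x a ≤ x b ∧ x b ≤ x c ∧ ∃ j, j ≠ i ∧ x a ≠ j ∧ x b ≠ j ∧ x c ≠ j := by
    obtain ⟨j, hj, h⟩ := hx
    exact ⟨x.monotone hab, x.monotone hbc, j, hj, h a, h b, h c⟩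
  rw [Z, dif_pos h]
  have h1 : (TD t x hx).z a b c = ((TD t x hx).pull (tr a b c hab hbc)).z 0 1 2 := rfl
  rw [h1, ← TD_pull t x hx (tr a b c hab hbc)
    (by obtain ⟨j, hj, h⟩ := hx; exact ⟨j, hj, fun e => h _⟩)]
  congr 2
  exact comp_tr x a b c hab hbc

lemma tr_mem {a b c : Fin (n + 1)} (hab : a ≤ b) (hbc : b ≤ c)
    (h : ∃ j, j ≠ i ∧ a ≠ j ∧ b ≠ j ∧ c ≠ j) :
    ∃ j, j ≠ i ∧ ∀ e, (tr a b c hab hbc) e ≠ j := by
  obtain ⟨j, hj, h1, h2, h3⟩ := h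
  refine ⟨j, hj, fun e => ?_⟩
  fin_cases e
  · exact h1
  · exact h2
  · exact h3

lemma Z_not {a b c : Fin (n + 1)} (h : ¬ ∃ j, j ≠ i ∧ a ≠ j ∧ b ≠ j ∧ c ≠ j) : Z t a b c = 0 := by
  rw [Z, dif_neg]
  rintro ⟨-, -, h'⟩
  exact h h'

lemma pr_mem {a b : Fin (n + 1)} (hab : a ≤ b)
    (h : ∃ j, j ≠ i ∧ a ≠ j ∧ b ≠ j) :
    ∃ j, j ≠ i ∧ ∀ e, (pr a b hab) e ≠ j := by
  obtain ⟨j, hj, h1, h2⟩ := h
  refine ⟨j, hj, fun e => ?_⟩
  fin_cases e
  · exact h1
  · exact h2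

lemma Z_left (a b : Fin (n + 1)) (hab : a ≤ b) : Z t a a b = 0 := by
  by_cases h : ∃ j, j ≠ i ∧ a ≠ j ∧ b ≠ j
  · have h1 := TD_z t (pr a b hab) (pr_mem hab h) (le_refl (0 : Fin (1 + 1)))
      (by decide : (0 : Fin (1 + 1)) ≤ 1)
    rw [DSimp.z_out _ _ _ _ (fun h => lt_irrefl _ h.1)] at h1
    exact h1.symm
  · apply Z_not
    rintro ⟨j, hj, h1, -, h3⟩
    exact h ⟨j, hj, h1, h3⟩

lemma Z_right (a b : Fin (n + 1)) (hab : a ≤ b) : Z t a b b = 0 := by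
  by_cases h : ∃ j, j ≠ i ∧ a ≠ j ∧ b ≠ j
  · have h1 := TD_z t (pr a b hab) (pr_mem hab h)
      (by decide : (0 : Fin (1 + 1)) ≤ 1) (le_refl (1 : Fin (1 + 1)))
    rw [DSimp.z_out _ _ _ _ (fun h => lt_irrefl _ h.2)] at h1
    exact h1.symm
  · apply Z_not
    rintro ⟨j, hj, h1, h2, -⟩
    exact h ⟨j, hj, h1, h2⟩

lemma Z_zero {a b c : Fin (n + 1)} (h0 : T0 t c = 0) : Z t a b c = 0 := by
  by_cases h : a ≤ b ∧ b ≤ c ∧ ∃ j, j ≠ i ∧ a ≠ j ∧ b ≠ j ∧ c ≠ j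
  · rw [Z, dif_pos h]
    apply DSimp.z_zero
    rw [TD_τ]
    exact h0
  · rw [Z, dif_neg h]

/-- the monotone map with four given values -/
def qd {n : ℕ} (a b c d : Fin (n + 1)) (h : a ≤ b) (h' : b ≤ c) (h'' : c ≤ d) :
    Fin (3 + 1) →o Fin (n + 1) where
  toFun := ![a, b, c, d]
  monotone' := by
    rw [Fin.monotone_iff_le_succ]
    intro j
    fin_cases j
    · exact h
    · exact h'
    · exact h''

lemma Z_cocycle {a b c d : Fin (n + 1)} (hab : a ≤ b) (hbc : b ≤ c) (hcd : c ≤ d)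
    (h : ∃ j, j ≠ i ∧ a ≠ j ∧ b ≠ j ∧ c ≠ j ∧ d ≠ j) :
    Z t b c d + Z t a b d = Z t a c d + Z t a b c := by
  have hx : ∃ j, j ≠ i ∧ ∀ e, (qd a b c d hab hbc hcd) e ≠ j := by
    obtain ⟨j, hj, h1, h2, h3, h4⟩ := h
    refine ⟨j, hj, fun e => ?_⟩
    fin_cases e
    · exact h1
    · exact h2
    · exact h3
    · exact h4
  have h1 := (TD t (qd a b c d hab hbc hcd) hx).cocycle 0 1 2 3 (by decide) (by decide) (by decide)
  rw [TD_z t _ hx (by decide) (by decide), TD_z t _ hx (by decide) (by decide),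
    TD_z t _ hx (by decide) (by decide), TD_z t _ hx (by decide) (by decide)] at h1
  exact h1

lemma T0_le {a b : Fin (n + 1)} (hab : a ≤ b) (h : ∃ j, j ≠ i ∧ a ≠ j ∧ b ≠ j) :
    T0 t a ≤ T0 t b := by
  have h1 := (TD t (pr a b hab) (pr_mem hab h)).τ.monotone (by decide : (0 : Fin (1 + 1)) ≤ 1)
  rw [TD_τ, TD_τ] at h1
  exact h1

/-- the cone -/
noncomputable def Y (a b : Fin (n + 1)) : k :=
  if i ≤ a then Z t i a b else if i ≤ b then - Z t a i b else Z t a b i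

lemma Y_self (b : Fin (n + 1)) : Y t b b = 0 := by
  unfold Y
  split_ifs with h
  · exact Z_right t i b h
  · exact Z_left t b i (not_le.1 h).le

/-- on the horn the cone formula gives back the cocycle -/
lemma Y_horn {a b c : Fin (n + 1)} (hab : a ≤ b) (hbc : b ≤ c)
    (h : ∃ j, j ≠ i ∧ a ≠ j ∧ b ≠ j ∧ c ≠ j) :
    Y t b c - Y t a c + Y t a b = Z t a b c := by
  obtain ⟨j, hj, h1, h2, h3⟩ := h
  unfold Y
  rcases le_or_gt i a with hi | hi
  · rw [if_pos (hi.trans hab), if_pos hi, if_pos hi]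
    have := Z_cocycle t hi hab hbc ⟨j, hj, hj.symm, h1, h2, h3⟩
    rw [← eq_sub_iff_add_eq] at this
    rw [this]; abel
  · rcases le_or_gt i b with hi' | hi'
    · rw [if_pos hi', if_neg (not_le.2 hi), if_neg (not_le.2 hi), if_pos hi',
        if_pos (hi'.trans hbc)]
      have := Z_cocycle t hi.le hi' hbc ⟨j, hj, h1, hj.symm, h2, h3⟩
      rw [← sub_eq_iff_eq_add] at this
      rw [← this]; abel
    · rcases le_or_gt i c with hi'' | hi''
      · rw [if_neg (not_le.2 hi'), if_pos hi'', if_neg (not_le.2 hi), if_neg (not_le.2 hi'),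
          if_pos hi'', if_neg (not_le.2 hi)]
        have := Z_cocycle t hab hi'.le hi'' ⟨j, hj, h1, h2, hj.symm, h3⟩
        rw [← eq_sub_iff_add_eq'] at this
        rw [this]; abel
      · rw [if_neg (not_le.2 hi'), if_neg (not_le.2 hi''), if_neg (not_le.2 hi),
          if_neg (not_le.2 hi''), if_neg (not_le.2 hi), if_neg (not_le.2 hi')]
        have := Z_cocycle t hab hbc hi''.le ⟨j, hj, h1, h2, h3, hj.symm⟩
        rw [← sub_eq_iff_eq_add'] at this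
        rw [← this]; abel

/-- vanishing of the cone formula -/
lemma Y_vanish {a b c : Fin (n + 1)} (hic : T0 t i = 0) (hc : T0 t c = 0) (hb : T0 t b = 0) :
    Y t b c - Y t a c + Y t a b = 0 := by
  have h1 : ∀ a b, T0 t b = 0 → Y t a b = 0 := by
    intro a b hb
    unfold Y
    split_ifs
    · exact Z_zero t hb
    · rw [Z_zero t hb, neg_zero]
    · exact Z_zero t hic
  rw [h1 b c hc, h1 a c hc, h1 a b hb]
  simp

end

section

variable {n : ℕ} {i : Fin (n + 2 + 1)} (hi0 : 0 < i) (hin : i < Fin.last (n + 2))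
  (t : ((Λ[n + 2, i] : (Δ[n + 2] : SSet.{u}).Subcomplex) : SSet.{u}) ⟶ DS k)

include hi0 hin

lemma T0_mono {a b : Fin (n + 2 + 1)} (hab : a ≤ b) : T0 t a ≤ T0 t b := by
  rcases le_or_gt a i with ha | ha
  · rcases le_or_gt i b with hb | hb
    · have h1 : ∃ j, j ≠ i ∧ a ≠ j ∧ i ≠ j :=
        ⟨Fin.last _, hin.ne', (ha.trans_lt hin).ne, hin.ne⟩
      have h2 : ∃ j, j ≠ i ∧ i ≠ j ∧ b ≠ j :=
        ⟨0, hi0.ne, hi0.ne', (hi0.trans_le hb).ne'⟩
      exact (T0_le t ha h1).trans (T0_le t hb h2)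
    · exact T0_le t hab ⟨Fin.last _, hin.ne', (ha.trans_lt hin).ne, (hb.trans hin).ne⟩
  · exact T0_le t hab ⟨0, hi0.ne, (hi0.trans ha).ne', ((hi0.trans ha).trans_le hab).ne'⟩

/-- the filler -/
noncomputable def fillD : DSimp k (n + 2) where
  τ := ⟨T0 t, fun _ _ h => T0_mono hi0 hin t h⟩
  z a b c := if a < b ∧ b < c then Y t b c - Y t a c + Y t a b else 0
  z_out a b c h := by simp [h]
  z_zero a b c h := by
    split_ifs with h1
    · obtain ⟨hab, hbc⟩ := h1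
      have hc : T0 t c = 0 := h
      rcases le_or_gt i c with hi | hi
      · have h2 := T0_mono hi0 hin t hi
        have h3 := T0_mono hi0 hin t hbc.le
        rw [hc] at h2 h3
        exact Y_vanish t (le_antisymm h2 (Fin.zero_le _)) hc (le_antisymm h3 (Fin.zero_le _))
      · rw [Y_horn t hab.le hbc.le ⟨Fin.last _, hin.ne', ((hab.trans hbc).trans (hi.trans hin)).ne,
          (hbc.trans (hi.trans hin)).ne, (hi.trans hin).ne⟩]
        exact Z_zero t hc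
    · rfl
  cocycle a b c d hab hbc hcd := by
    have key : ∀ a b c, a ≤ b → b ≤ c →
        (if a < b ∧ b < c then Y t b c - Y t a c + Y t a b else 0) =
          Y t b c - Y t a c + Y t a b := by
      intro a b c h1 h2
      rcases h1.eq_or_lt with rfl | h1
      · simp [Y_self]
      rcases h2.eq_or_lt with rfl | h2
      · simp [Y_self]
      simp [h1, h2]
    rw [key b c d hbc hcd, key a b d hab (hbc.trans hcd), key a c d (hab.trans hbc) hcd,
      key a b c hab hbc]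
    abel

lemma fillD_pull {m : ℕ} (x : Fin (m + 1) →o Fin (n + 2 + 1))
    (hx : ∃ j, j ≠ i ∧ ∀ a, x a ≠ j) : (fillD hi0 hin t).pull x = TD t x hx := by
  apply DSimp.ext
  · ext a
    rw [TD_τ]
    rfl
  · funext a b c
    rcases lt_or_ge a b with hab | hab
    · rcases lt_or_ge b c with hbc | hbc
      · rw [TD_z t x hx hab.le hbc.le]
        have h1 := x.monotone hab.le
        have h2 := x.monotone hbc.le
        change (if x a < x b ∧ x b < x c then Y t (x b) (x c) - Y t (x a) (x c) + Y t (x a) (x b)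
          else 0) = _
        obtain ⟨j, hj, h⟩ := hx
        rw [← Y_horn t h1 h2 ⟨j, hj, h a, h b, h c⟩]
        rcases h1.eq_or_lt with h1 | h1
        · simp [h1, Y_self]
        rcases h2.eq_or_lt with h2 | h2
        · simp [h2, Y_self]
        simp [h1, h2]
      · rw [DSimp.z_out _ _ _ _ (fun h => absurd h.2 (not_lt.2 hbc)),
          DSimp.z_out _ _ _ _ (fun h => absurd h.2 (not_lt.2 hbc))]
    · rw [DSimp.z_out _ _ _ _ (fun h => absurd h.1 (not_lt.2 hab)),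
        DSimp.z_out _ _ _ _ (fun h => absurd h.1 (not_lt.2 hab))]

end

/-- `D` is a quasi-category -/
theorem quasicategory_DS (k : Type u) [AddCommGroup k] : SSet.Quasicategory (DS k) where
  hornFilling' n i t hi0 hin := by
    refine ⟨SSet.yonedaEquiv.symm (fillD hi0 hin t), ?_⟩
    ext ⟨⟨m⟩⟩ s
    obtain ⟨x, hx, rfl⟩ := exists_hs s
    exact (fillD_pull hi0 hin t x hx).symm

end Pool.Agent.Q196.HI
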