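import Pool.Agent.Q196.HI.Fib

open CategoryTheory Simplicial Opposite SimplexCategory.Truncated SimplicialObject.Truncated

universe u

namespace Pool.Agent.Q196.HI

variable {k : Type u} [Field k]

/-- the truncation of `E` -/
abbrev EV (k : Type u) [Field k] : SSet.Truncated.{u} 2 := (SSet.truncation 2).obj (ES k)

open SSet.Truncated

section edge

variable {x y : (EV k) _⦋0⦌₂} (e : Edge x y)

/-- the underlying simplex of an edge -/
def ed : ESimp k 1 := e.edge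

/-- the vertex -/
def vx (x : (EV k) _⦋0⦌₂) : ESimp k 0 := x

lemma ed_src : (vx x).τ 0 = (ed e).τ 0 := by
  have := e.src_eq
  exact congrArg (fun s : ESimp k 0 => s.τ 0) this.symm

lemma ed_tgt : (vx y).τ 0 = (ed e).τ 1 := by
  have := e.tgt_eq
  exact congrArg (fun s : ESimp k 0 => s.τ 0) this.symm

include e in
lemma ed_le : (vx x).τ 0 ≤ (vx y).τ 0 := by
  rw [ed_src e, ed_tgt e]
  exact (ed e).τ.monotone (by decide)

end edge

/-- the unipotent map -/
def U (w : k) : (k × k) →ₗ[k] (k × k) :=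
  LinearMap.prod (LinearMap.fst k k k + w • LinearMap.snd k k k) (LinearMap.snd k k k)

@[simp] lemma U_apply (w : k) (v : k × k) : U w v = (v.1 + w * v.2, v.2) := rfl

/-- the module at a vertex -/
def Bsub (x : (EV k) _⦋0⦌₂) : Submodule k (k × k) where
  carrier := {v | (vx x).τ 0 = 1 → v = 0}
  add_mem' := by
    intro a b ha hb h
    rw [ha h, hb h, add_zero]
  zero_mem' := fun _ => rfl
  smul_mem' := by
    intro c a ha h
    rw [ha h, smul_zero]

lemma U_mem {x y : (EV k) _⦋0⦌₂} (e : Edge x y) (w : k) {v : k × k} (hv : v ∈ Bsub y) :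
    U w v ∈ Bsub x := by
  intro hx
  have h1 := ed_le e
  rw [hx] at h1
  have h2 : (vx y).τ 0 = 1 := le_antisymm (Fin.le_last _) h1
  rw [hv h2, map_zero]

/-- the transition map of an edge -/
def Bmap {x y : (EV k) _⦋0⦌₂} (e : Edge x y) : Bsub y →ₗ[k] Bsub x :=
  (U ((ed e).w 0 1)).restrict (fun _ hv => U_mem e _ hv)

lemma Bmap_coe {x y : (EV k) _⦋0⦌₂} (e : Edge x y) (v : Bsub y) :
    (Bmap e v : k × k) = U ((ed e).w 0 1) v := rfl

lemma Bmap_id (x : (EV k) _⦋0⦌₂) : Bmap (.id x) = LinearMap.id := by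
  ext1 v
  apply Subtype.ext
  rw [Bmap_coe]
  have h : (ed (.id x)).w 0 1 = 0 := (vx x).w_out _ _ (lt_irrefl _)
  rw [h]
  simp

lemma Bmap_comp {x₀ x₁ x₂ : (EV k) _⦋0⦌₂} {e₀₁ : Edge x₀ x₁} {e₁₂ : Edge x₁ x₂}
    {e₀₂ : Edge x₀ x₂} (h : Edge.CompStruct e₀₁ e₁₂ e₀₂) :
    Bmap e₀₁ ∘ₗ Bmap e₁₂ = Bmap e₀₂ := by
  ext1 v
  apply Subtype.ext
  let s : ESimp k 2 := h.simplex
  have h01 : (ed e₀₁).w 0 1 = s.w 0 1 := congrArg (fun t : ESimp k 1 => t.w 0 1) h.d₂.symm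
  have h12 : (ed e₁₂).w 0 1 = s.w 1 2 := congrArg (fun t : ESimp k 1 => t.w 0 1) h.d₀.symm
  have h02 : (ed e₀₂).w 0 1 = s.w 0 2 := congrArg (fun t : ESimp k 1 => t.w 0 1) h.d₁.symm
  have ht : (vx x₂).τ 0 = s.τ 2 := by
    rw [ed_tgt e₁₂]
    exact congrArg (fun t : ESimp k 1 => t.τ 1) h.d₀.symm
  change U _ (U _ (v : k × k)) = U _ (v : k × k)
  rw [h01, h12, h02]
  rcases Fin.exists_fin_two.1 ⟨s.τ 2, rfl⟩ with h0 | h0
  · have := s.cocycle 0 1 2 (by decide) (by decide) h0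
    rw [← this]
    ext
    · simp only [U_apply]; ring
    · rfl
  · have hv : (v : k × k) = 0 := v.2 (by rw [ht, h0])
    rw [hv]
    simp

end Pool.Agent.Q196.HI
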